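import Pool.Agent.R526.PW.Ind

set_option autoImplicit false

/-! # Moved primes just above powers -/

namespace Pool.Agent.R526.PW

open MeasureTheory ProbabilityTheory Filter Finset Topology
open Pool.Agent.R526.RS

open scoped Classical

variable {Ω : Type} [MeasurableSpace Ω] (μ : Measure Ω) [IsProbabilityMeasure μ] {ξ : ℕ → Ω → ℕ}

theorem nj_top (g : ℕ) (hg : 2 ≤ g) : Tendsto (fun j : ℕ => g ^ j - 1) atTop atTop := by
  have h1 : Tendsto (fun j : ℕ => g ^ j) atTop atTop := tendsto_pow_atTop_atTop_of_one_lt (by omega)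
  exact (tendsto_sub_atTop_nat 1).comp h1

theorem nj_log (g : ℕ) (hg : 2 ≤ g) : ∀ᶠ j : ℕ in atTop, (j : ℝ) * Real.log g - 1 ≤ Real.log ((g ^ j - 1 : ℕ) : ℝ) ∧
    Real.log ((g ^ j - 1 : ℕ) : ℝ) ≤ j * Real.log g := by
  have hg' : (2 : ℝ) ≤ g := by exact_mod_cast hg
  filter_upwards [eventually_ge_atTop 1] with j hj
  have h1 : (1 : ℝ) ≤ (g : ℝ) ^ j := one_le_pow₀ (by linarith)
  have h2 : (2 : ℝ) ≤ (g : ℝ) ^ j := hg'.trans (le_self_pow₀ (by linarith) (by omega))
  have h3 : ((g ^ j - 1 : ℕ) : ℝ) = (g : ℝ) ^ j - 1 := by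
    rw [Nat.cast_sub (Nat.one_le_pow _ _ (by omega))]
    push_cast
    ring
  rw [h3, ← Real.log_pow]
  constructor
  · have h4 : Real.log ((g : ℝ) ^ j / 2) ≤ Real.log ((g : ℝ) ^ j - 1) :=
      Real.log_le_log (by positivity) (by linarith)
    rw [Real.log_div (by positivity) (by norm_num)] at h4
    have := Real.log_two_lt_d9
    linarith
  · exact Real.log_le_log (by linarith) (by linarith)

theorem log_g (g : ℕ) (hg : 2 ≤ g) : (0.69 : ℝ) < Real.log g := by
  have h1 : Real.log 2 ≤ Real.log g := Real.log_le_log (by norm_num) (by exact_mod_cast hg)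
  have := Real.log_two_gt_d9
  linarith

theorem small (g : ℕ) (hg : 2 ≤ g) (b : ℝ) (hb : 0 < b) : ∀ᶠ j : ℕ in atTop,
    ((⌊b * (j * Real.log j)⌋₊ + 1 : ℕ) : ℝ) ≤ (Real.log ((g ^ j - 1 : ℕ) : ℝ)) ^ 2 := by
  have h1 := (Real.isLittleO_log_id_atTop).bound (show (0 : ℝ) < 1 / (8 * b) by positivity)
  filter_upwards [tendsto_natCast_atTop_atTop.eventually h1, nj_log g hg, eventually_ge_atTop 6] with j h2 h3 h4
  have hj : (6 : ℝ) ≤ j := by exact_mod_cast h4
  have hl : 0 ≤ Real.log j := Real.log_nonneg (by linarith)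
  rw [Real.norm_of_nonneg hl, id, Real.norm_of_nonneg (by linarith)] at h2
  have h5 : (j : ℝ) / 2 ≤ Real.log ((g ^ j - 1 : ℕ) : ℝ) := by
    have := log_g g hg
    nlinarith [h3.1]
  have h6 : ((j : ℝ) / 2) ^ 2 ≤ (Real.log ((g ^ j - 1 : ℕ) : ℝ)) ^ 2 := pow_le_pow_left₀ (by linarith) h5 2
  have h7 : b * (j * Real.log j) ≤ j ^ 2 / 8 := by
    calc b * (j * Real.log j) ≤ b * (j * (1 / (8 * b) * j)) := by
          apply mul_le_mul_of_nonneg_left _ hb.le
          exact mul_le_mul_of_nonneg_left h2 (by linarith)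
      _ = j ^ 2 / 8 := by field_simp
  have h8 : (⌊b * (j * Real.log j)⌋₊ : ℝ) ≤ b * (j * Real.log j) := Nat.floor_le (by positivity)
  push_cast
  nlinarith

theorem upper (hξ : ∀ p, Measurable (ξ p)) (hind : iIndepFun ξ μ) (A : ℕ) (hA : 1 ≤ A)
    (W : ℕ → ℕ) (hW : Tendsto (fun p : ℕ => (W p : ℝ) / Dl A p) atTop (𝓝 1)) (δ : ℝ) (hδ0 : 0 < δ)
    (p₀ : ℕ) (hlaw : ∀ p, p.Prime → p₀ ≤ p → Law μ (ξ p) p (W p) δ)
    (g : ℕ) (hg : 2 ≤ g) (b : ℝ) (hb : Real.log g < δ * b) :
    ∀ᵐ ω ∂μ, ∀ᶠ j : ℕ in atTop, ∃ p : ℕ, p.Prime ∧ g ^ j ≤ ξ p ω ∧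
      (ξ p ω : ℝ) ≤ (g : ℝ) ^ j + b * (j * Real.log j) := by
  have hlg := log_g g hg
  have hb0 : 0 < b := by
    by_contra hc
    have : δ * b ≤ 0 := mul_nonpos_of_nonneg_of_nonpos hδ0.le (by linarith)
    linarith
  set q := δ * b / Real.log g with hq
  have hq1 : 1 < q := by
    rw [hq, lt_div_iff₀ (by linarith), one_mul]
    exact hb
  set e := min (1 / 10) ((q - 1) / (10 * q)) with he
  have he0 : 0 < e := lt_min (by norm_num) (div_pos (by linarith) (by linarith))
  have he1 : e ≤ 1 / 10 := min_le_left _ _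
  have he2 : e * (10 * q) ≤ q - 1 := by
    have := min_le_right (1 / 10) ((q - 1) / (10 * q))
    rwa [← he, le_div_iff₀ (by linarith)] at this
  set r := (1 + q) / 2 with hr
  have hr1 : 1 < r := by rw [hr]; linarith
  have hcoef : r ≤ (1 - 4 * e) / (1 + e) * q := by
    have h1 : 1 - 5 * e ≤ (1 - 4 * e) / (1 + e) := by
      rw [le_div_iff₀ (by linarith)]
      nlinarith
    have h2 : (1 - 5 * e) * q ≤ (1 - 4 * e) / (1 + e) * q := mul_le_mul_of_nonneg_right h1 (by linarith)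
    rw [hr]
    nlinarith
  have hU := (nj_top g hg).eventually (up μ hξ hind A hA W hW δ hδ0 p₀ hlaw e he0 he1)
  have hbc := bc_sum μ (fun j : ℕ => Av ξ ((Icc 1 (g ^ j - 1)).filter (fun p : ℕ => p.Prime ∧
      ((g ^ j - 1 : ℕ) : ℝ) - (1 - 3 * e) * Dl A (g ^ j - 1) < p))
        (Ioc (g ^ j - 1) (g ^ j - 1 + (⌊b * (j * Real.log j)⌋₊ + 1)))) (fun j : ℕ => (j : ℝ) ^ (-r))
      (fun j => by positivity) (Real.summable_nat_rpow.2 (by linarith)) (by
        filter_upwards [hU, small g hg b hb0, nj_log g hg, eventually_ge_atTop 3] with j h1 h2 h3 h4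
        refine (h1 _ h2).trans ?_
        have hj : (3 : ℝ) ≤ j := by exact_mod_cast h4
        have hl : 0 ≤ Real.log j := Real.log_nonneg (by linarith)
        rw [Real.rpow_def_of_pos (by linarith)]
        apply Real.exp_le_exp.2
        rw [mul_neg]
        apply neg_le_neg
        have h5 : 0 < Real.log ((g ^ j - 1 : ℕ) : ℝ) := by nlinarith [h3.1]
        have h6 : b * (j * Real.log j) ≤ ((⌊b * (j * Real.log j)⌋₊ + 1 : ℕ) : ℝ) := by
          push_cast
          exact (Nat.lt_floor_add_one _).le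
        have h7 : b * Real.log j / Real.log g ≤
            ((⌊b * (j * Real.log j)⌋₊ + 1 : ℕ) : ℝ) / Real.log ((g ^ j - 1 : ℕ) : ℝ) := by
          calc b * Real.log j / Real.log g = b * (j * Real.log j) / (j * Real.log g) := by
                have : (j : ℝ) ≠ 0 := by linarith
                field_simp
            _ ≤ _ := div_le_div₀ (Nat.cast_nonneg _) h6 h5 h3.2
        have h8 : 0 ≤ (1 - 4 * e) / (1 + e) := div_nonneg (by linarith) (by linarith)
        calc Real.log j * r ≤ Real.log j * ((1 - 4 * e) / (1 + e) * q) := mul_le_mul_of_nonneg_left hcoef hl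
          _ = (1 - 4 * e) / (1 + e) * (δ * (b * Real.log j / Real.log g)) := by
              rw [hq]
              field_simp
          _ ≤ _ := by
              apply mul_le_mul_of_nonneg_left _ h8
              exact mul_le_mul_of_nonneg_left h7 hδ0.le)
  filter_upwards [hbc] with ω hω
  filter_upwards [hω, eventually_ge_atTop 3] with j hj hj3
  rw [mem_Av] at hj
  push Not at hj
  obtain ⟨p, hp, hp2⟩ := hj
  rw [mem_filter] at hp
  rw [mem_Ioc] at hp2
  have h1 : 1 ≤ g ^ j := Nat.one_le_pow _ _ (by omega)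
  refine ⟨p, hp.2.1, by omega, ?_⟩
  have h2 : ξ p ω ≤ g ^ j + ⌊b * (j * Real.log j)⌋₊ := by omega
  have h3 : (ξ p ω : ℝ) ≤ (g : ℝ) ^ j + ⌊b * (j * Real.log j)⌋₊ := by exact_mod_cast h2
  have hj' : (3 : ℝ) ≤ j := by exact_mod_cast hj3
  have hl : 0 ≤ Real.log j := Real.log_nonneg (by linarith)
  have h4 : (⌊b * (j * Real.log j)⌋₊ : ℝ) ≤ b * (j * Real.log j) := Nat.floor_le (by positivity)
  linarith

theorem lower_pos (hξ : ∀ p, Measurable (ξ p)) (hind : iIndepFun ξ μ) (A : ℕ) (hA : 1 ≤ A)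
    (W : ℕ → ℕ) (hW : Tendsto (fun p : ℕ => (W p : ℝ) / Dl A p) atTop (𝓝 1))
    (p₀ : ℕ) (hp₀ : ∀ p, p.Prime → p₀ ≤ p → 1 ≤ W p) (hlaw : ∀ p, p.Prime → p₀ ≤ p → Law μ (ξ p) p (W p) 1)
    (g : ℕ) (hg : 2 ≤ g) (b : ℝ) (hb0 : 0 < b) (hb : b < Real.log g) :
    ∀ᵐ ω ∂μ, ∃ᶠ j : ℕ in atTop, ∀ p : ℕ, p.Prime → ¬ (g ^ j ≤ ξ p ω ∧
      (ξ p ω : ℝ) ≤ (g : ℝ) ^ j + b * (j * Real.log j)) := by
  have hlg := log_g g hg
  set q := b / Real.log g with hq
  have hq0 : 0 < q := div_pos hb0 (by linarith)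
  have hq1 : q < 1 := by
    rw [hq, div_lt_iff₀ (by linarith), one_mul]
    exact hb
  set e := min (1 / 10) ((1 - q) / 40) with he
  have he0 : 0 < e := lt_min (by norm_num) (by linarith)
  have he1 : e ≤ 1 / 10 := min_le_left _ _
  have he2 : e ≤ (1 - q) / 40 := min_le_right _ _
  set n : ℕ → ℕ := fun j => g ^ j - 1 with hn
  have hnt : Tendsto n atTop atTop := nj_top g hg
  set F : ℕ → Finset ℕ := fun j => (Icc 1 (2 * n j)).filter (fun p : ℕ => p.Prime ∧ p₀ ≤ p ∧ 3 * n j < 4 * p ∧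
    4 * p ≤ 5 * n j) with hF
  set w : ℕ → ℕ := fun j => ⌊b * (j * Real.log j)⌋₊ + 1 with hw
  set I : ℕ → Finset ℕ := fun j => Ioc (n j) (n j + w j) with hI
  have hstep : ∀ i j, i < j → 2 * n i ≤ n j := by
    intro i j hij
    have h1 : g ^ (i + 1) ≤ g ^ j := Nat.pow_le_pow_right (by omega) hij
    have h2 : 2 * g ^ i ≤ g ^ (i + 1) := by
      rw [pow_succ, mul_comm]
      exact Nat.mul_le_mul_left _ hg
    simp only [hn]
    omega
  have hdis : ∀ i j, i < j → Disjoint (F i) (F j) := by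
    intro i j hij
    rw [disjoint_left]
    intro p hp1 hp2
    simp only [hF, mem_filter] at hp1 hp2
    have := hstep i j hij
    omega
  have hdis' : ∀ i j, i ≠ j → Disjoint (F i) (F j) := by
    intro i j hij
    rcases lt_or_gt_of_ne hij with h | h
    · exact hdis i j h
    · exact (hdis j i h).symm
  have hbc := bc2 μ (fun j => Av ξ (F j) (I j)) (fun j => Av_meas hξ _ _) (indep μ hξ hind F I hdis') (by
    have hlogt : Tendsto (fun j : ℕ => Real.log (j : ℝ)) atTop atTop :=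
      Real.tendsto_log_atTop.comp tendsto_natCast_atTop_atTop
    filter_upwards [hnt.eventually (low μ hξ hind A hA W hW 1 one_pos le_rfl p₀ hp₀ hlaw e he0 he1), small g hg b hb0,
      nj_log g hg, hlogt.eventually_ge_atTop (max 1 (max (1 / (b * e)) (2 * e / (1 - q)))),
      eventually_ge_atTop 3, tendsto_natCast_atTop_atTop.eventually_ge_atTop (1 / (e * Real.log g))]
      with j h1 h2 h3 h4 h5 h6
    have h7 := h1 (w j) h2 (F j) (fun p hp => by
      simp only [hF, mem_filter] at hp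
      exact ⟨hp.2.1, hp.2.2.1⟩)
    refine le_trans ?_ h7
    have hj : (3 : ℝ) ≤ j := by exact_mod_cast h5
    have hl1 : 1 ≤ Real.log j := (le_max_left _ _).trans h4
    have hl2 : 1 / (b * e) ≤ Real.log j := (le_max_left _ _).trans ((le_max_right _ _).trans h4)
    have hl3 : 2 * e / (1 - q) ≤ Real.log j := (le_max_right _ _).trans ((le_max_right _ _).trans h4)
    rw [div_le_iff₀ (by positivity)] at hl2
    rw [div_le_iff₀ (by linarith)] at hl3
    rw [div_le_iff₀ (mul_pos he0 (by linarith))] at h6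
    rw [Real.log_one, neg_zero, mul_zero, zero_add, one_mul]
    have h8 : (1 : ℝ) / j = Real.exp (-Real.log j) := by
      rw [Real.exp_neg, Real.exp_log (by linarith), one_div]
    rw [h8]
    apply Real.exp_le_exp.2
    apply neg_le_neg
    have h9 : (w j : ℝ) ≤ (1 + e) * (b * (j * Real.log j)) := by
      have h10 : (w j : ℝ) ≤ b * (j * Real.log j) + 1 := by
        simp only [hw]
        push_cast
        have := Nat.floor_le (show 0 ≤ b * (j * Real.log j) by positivity)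
        linarith
      have h11 : 1 ≤ e * (b * (j * Real.log j)) := by
        have h12 : 1 * 1 ≤ (Real.log j * (b * e)) * j := mul_le_mul hl2 (by linarith) (by norm_num) (by positivity)
        calc (1 : ℝ) = 1 * 1 := by norm_num
          _ ≤ _ := h12
          _ = _ := by ring
      linarith
    have h10 : (1 - e) * (j * Real.log g) ≤ Real.log (n j) := by
      have h11 : 1 ≤ e * (j * Real.log g) := by linarith [h6]
      have := h3.1
      simp only [hn]
      linarith
    have hpos : 0 < (1 - e) * (j * Real.log g) := by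
      apply mul_pos (by linarith)
      apply mul_pos (by linarith) (by linarith)
    have h11 : (w j : ℝ) / Real.log (n j) ≤ (1 + e) / (1 - e) * (q * Real.log j) := by
      calc (w j : ℝ) / Real.log (n j) ≤ (1 + e) * (b * (j * Real.log j)) / ((1 - e) * (j * Real.log g)) :=
            div_le_div₀ (by positivity) h9 hpos h10
        _ = _ := by
            rw [hq]
            have : (j : ℝ) ≠ 0 := by linarith
            have : 1 - e ≠ 0 := by linarith
            have : Real.log g ≠ 0 := by linarith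
            field_simp
    have h12 : (1 + 10 * e) * ((1 + e) / (1 - e)) ≤ 1 + 20 * e := by
      rw [mul_div_assoc', div_le_iff₀ (by linarith)]
      nlinarith
    calc e + (1 + 10 * e) * ((w j : ℝ) / Real.log (n j)) ≤ e + (1 + 10 * e) * ((1 + e) / (1 - e) * (q * Real.log j)) := by
          have := mul_le_mul_of_nonneg_left h11 (show 0 ≤ 1 + 10 * e by linarith)
          linarith
      _ = e + (1 + 10 * e) * ((1 + e) / (1 - e)) * (q * Real.log j) := by ring
      _ ≤ e + (1 + 20 * e) * (q * Real.log j) := by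
          have := mul_le_mul_of_nonneg_right h12 (show 0 ≤ q * Real.log j by positivity)
          linarith
      _ ≤ Real.log j := by
          have h13 : (1 + 20 * e) * q ≤ (1 + q) / 2 := by nlinarith
          have h14 : (1 + 20 * e) * q * Real.log j ≤ (1 + q) / 2 * Real.log j :=
            mul_le_mul_of_nonneg_right h13 (by linarith)
          nlinarith)
  have hae : ∀ᵐ ω ∂μ, ∀ p : ℕ, p.Prime → p₀ ≤ p → p ≤ ξ p ω ∧ ξ p ω ≤ p + W p := by
    rw [ae_all_iff]
    intro p
    by_cases hp : p.Prime ∧ p₀ ≤ p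
    · filter_upwards [ae_mem μ (hξ p) (hlaw p hp.1 hp.2) (hp₀ p hp.1 hp.2)] with ω hω _ _
      exact hω
    · filter_upwards with ω h1 h2
      exact absurd ⟨h1, h2⟩ hp
  filter_upwards [hbc, hae] with ω hω hω2
  set M := ∑ p ∈ range p₀, ξ p ω with hM
  have hev : ∀ᶠ j : ℕ in atTop, M ≤ n j ∧ (w j : ℝ) ≤ (Real.log (n j)) ^ 2 ∧
      (∀ p : ℕ, p ≤ n j → n j < p + W p → (n j : ℝ) - (1 + 2 * e) * Dl A (n j) < p) ∧
      8 ≤ Real.log (n j) ∧ 4 * (Real.log (n j)) ^ 2 ≤ n j := by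
    have h1 : ∀ᶠ m : ℕ in atTop, 4 * (Real.log (m : ℝ)) ^ 2 ≤ m := by
      have h1 := (Real.isLittleO_pow_log_id_atTop (n := 2)).def (show (0 : ℝ) < 1 / 4 by norm_num)
      filter_upwards [tendsto_natCast_atTop_atTop.eventually h1] with m h2
      rw [Real.norm_of_nonneg (by positivity), id, Real.norm_of_nonneg (Nat.cast_nonneg m)] at h2
      linarith
    have hlogt : Tendsto (fun j : ℕ => Real.log (n j : ℝ)) atTop atTop :=
      Real.tendsto_log_atTop.comp (tendsto_natCast_atTop_atTop.comp hnt)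
    filter_upwards [hnt.eventually_ge_atTop M, small g hg b hb0,
      hnt.eventually (shifts A hA W hW e he0 he1 1), hlogt.eventually_ge_atTop 8, hnt.eventually h1]
      with j g1 g2 g3 g4 g5
    exact ⟨g1, g2, g3.2.1, g4, g5⟩
  refine (hω.and_eventually (hev.and (eventually_ge_atTop 3))).mono ?_
  rintro j ⟨h1, ⟨g1, g2, g3, g4, g5⟩, hj3⟩ p hp ⟨hp1, hp2⟩
  rw [mem_Av] at h1
  have hgj : 1 ≤ g ^ j := Nat.one_le_pow _ _ (by omega)
  have hj' : (3 : ℝ) ≤ j := by exact_mod_cast hj3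
  have hl : 0 ≤ Real.log j := Real.log_nonneg (by linarith)
  have hin : ξ p ω ∈ I j := by
    simp only [hI, mem_Ioc, hn, hw]
    have h5 : ξ p ω - g ^ j ≤ ⌊b * (j * Real.log j)⌋₊ := by
      apply Nat.le_floor
      rw [Nat.cast_sub hp1]
      push_cast
      linarith
    omega
  have hin2 := hin
  simp only [hI, mem_Ioc] at hin2
  have hpp : p₀ ≤ p := by
    by_contra hc
    have h6 : ξ p ω ≤ M := by
      rw [hM]
      exact single_le_sum (f := fun p => ξ p ω) (fun _ _ => Nat.zero_le _) (mem_range.2 (by omega))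
    omega
  obtain ⟨k1, k2⟩ := hω2 p hp hpp
  have k3 : (n j : ℝ) + w j ≤ 5 / 4 * n j := by linarith
  have k4 : 4 * p ≤ 5 * n j := by
    have : (p : ℝ) ≤ n j + w j := by exact_mod_cast k1.trans hin2.2
    have : (4 : ℝ) * p ≤ 5 * n j := by linarith
    exact_mod_cast this
  have k5 : 3 * n j < 4 * p := by
    rcases le_or_gt p (n j) with h | h
    · have h6 := g3 p h (by omega)
      have h7 : (1 + 2 * e) * Dl A (n j) ≤ 1 / 4 * n j := by
        have h8 : (Real.log (n j)) ≤ (Real.log (n j)) ^ A := le_self_pow₀ (by linarith) (by omega)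
        have h9 : Dl A (n j) ≤ n j / 8 := by
          unfold Dl
          exact div_le_div_of_nonneg_left (Nat.cast_nonneg _) (by norm_num) (by linarith)
        have h10 : (0 : ℝ) ≤ n j := Nat.cast_nonneg _
        nlinarith
      have : (3 : ℝ) * n j < 4 * p := by linarith
      exact_mod_cast this
    · omega
  refine h1 p ?_ hin
  simp only [hF, mem_filter, mem_Icc]
  exact ⟨⟨hp.one_lt.le, by omega⟩, hp, hpp, k5, k4⟩

theorem lower (hξ : ∀ p, Measurable (ξ p)) (hind : iIndepFun ξ μ) (A : ℕ) (hA : 1 ≤ A)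
    (W : ℕ → ℕ) (hW : Tendsto (fun p : ℕ => (W p : ℝ) / Dl A p) atTop (𝓝 1))
    (p₀ : ℕ) (hlaw : ∀ p, p.Prime → p₀ ≤ p → Law μ (ξ p) p (W p) 1)
    (g : ℕ) (hg : 2 ≤ g) (b : ℝ) (hb : b < Real.log g) :
    ∀ᵐ ω ∂μ, ∃ᶠ j : ℕ in atTop, ∀ p : ℕ, p.Prime → ¬ (g ^ j ≤ ξ p ω ∧
      (ξ p ω : ℝ) ≤ (g : ℝ) ^ j + b * (j * Real.log j)) := by
  have hlg := log_g g hg
  have hW1 : ∀ᶠ p : ℕ in atTop, 1 ≤ W p := by
    filter_upwards [hW.eventually_const_lt (show (1 / 2 : ℝ) < 1 by norm_num), basic A 2 1 one_pos] with p h1 h2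
    obtain ⟨h3, h4, -, -⟩ := h2
    have h5 : (1 : ℝ) ≤ (Real.log p) ^ 2 := one_le_pow₀ (by linarith)
    have h6 : 2 ≤ Dl A p := by linarith
    rw [lt_div_iff₀ (by linarith)] at h1
    have h7 : (0 : ℝ) < W p := by linarith
    exact_mod_cast h7
  obtain ⟨p₁, hp₁⟩ := eventually_atTop.1 hW1
  have h1 := lower_pos μ hξ hind A hA W hW (max p₀ p₁) (fun p _ hp0 => hp₁ p ((le_max_right _ _).trans hp0))
    (fun p hp hp0 => hlaw p hp ((le_max_left _ _).trans hp0)) g hg (max b (Real.log g / 2))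
    (lt_max_of_lt_right (by linarith)) (max_lt hb (by linarith))
  filter_upwards [h1] with ω hω
  refine (hω.and_eventually (eventually_ge_atTop 3)).mono ?_
  rintro j ⟨h2, h3⟩ p hp ⟨hp1, hp2⟩
  apply h2 p hp
  refine ⟨hp1, hp2.trans ?_⟩
  have hj' : (3 : ℝ) ≤ j := by exact_mod_cast h3
  have hl : 0 ≤ Real.log j := Real.log_nonneg (by linarith)
  have := mul_le_mul_of_nonneg_right (le_max_left b (Real.log g / 2)) (show 0 ≤ (j : ℝ) * Real.log j by positivity)
  linarith

end Pool.Agent.R526.PW
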