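import Pool.Agent.R526.PW.Low
import Pool.Agent.Helper601.PNT

set_option autoImplicit false

/-! # Independent windows, and the asymptotic of the `n`-th prime -/

namespace Pool.Agent.R526.PW

open MeasureTheory ProbabilityTheory Filter Finset Topology
open Pool.Agent.R526.RS

open scoped Classical

variable {Ω : Type} [MeasurableSpace Ω] (μ : Measure Ω) [IsProbabilityMeasure μ] {ξ : ℕ → Ω → ℕ}

theorem indep (hξ : ∀ p, Measurable (ξ p)) (h : iIndepFun ξ μ) (F I : ℕ → Finset ℕ)
    (hd : ∀ i j, i ≠ j → Disjoint (F i) (F j)) : iIndepSet (fun k => Av ξ (F k) (I k)) μ := by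
  rw [iIndepSet_iff_meas_biInter (fun k => Av_meas hξ (F k) (I k))]
  intro s
  have key : ∀ k, μ (Av ξ (F k) (I k)) = ∏ p ∈ F k, μ {ω | ξ p ω ∉ I k} := by
    intro k
    have h1 := h.measure_inter_preimage_eq_mul (F k) (sets := fun _ => {m : ℕ | m ∉ I k})
      (fun i _ => MeasurableSet.of_discrete)
    unfold Av
    exact h1
  have h1 := h.measure_inter_preimage_eq_mul (s.biUnion F)
    (sets := fun p => {m : ℕ | ∀ k ∈ s, p ∈ F k → m ∉ I k}) (fun i _ => MeasurableSet.of_discrete)
  have h2 : (⋂ k ∈ s, Av ξ (F k) (I k)) =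
      ⋂ p ∈ s.biUnion F, ξ p ⁻¹' {m : ℕ | ∀ k ∈ s, p ∈ F k → m ∉ I k} := by
    ext ω
    simp only [Set.mem_iInter, Av, Set.mem_setOf_eq, Set.mem_preimage, mem_biUnion]
    constructor
    · intro a p _ k hk hp
      exact a k hk p hp
    · intro a k hk p hp
      exact a p ⟨k, hk, hp⟩ k hk hp
  rw [h2, h1, prod_biUnion (fun i _ j _ hij => hd i j hij)]
  refine prod_congr rfl fun k hk => ?_
  rw [key k]
  refine prod_congr rfl fun p hp => ?_
  congr 1
  ext ω
  simp only [Set.mem_setOf_eq, Set.mem_preimage]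
  constructor
  · intro a
    exact a k hk hp
  · intro a k' hk' hp'
    by_cases hkk : k = k'
    · rw [← hkk]; exact a
    · exact absurd hp' (disjoint_left.1 (hd k k' hkk) hp)

/-- the second Borel-Cantelli lemma with the harmonic series -/
theorem bc2 (s : ℕ → Set Ω) (hsm : ∀ n, MeasurableSet (s n)) (hs : iIndepSet s μ)
    (h : ∀ᶠ k : ℕ in atTop, 1 / (k : ℝ) ≤ μ.real (s k)) : ∀ᵐ ω ∂μ, ∃ᶠ k in atTop, ω ∈ s k := by
  have h1 : ∑' k, μ (s k) = ⊤ := by
    by_contra hne
    have h2 := ENNReal.summable_toReal hne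
    apply Real.not_summable_one_div_natCast
    refine Summable.of_norm_bounded_eventually_nat h2 ?_
    filter_upwards [h] with k hk
    rw [Real.norm_of_nonneg (by positivity)]
    exact hk
  have h3 := measure_limsup_eq_one hsm hs h1
  have h4 : MeasurableSet (limsup s atTop) := MeasurableSet.measurableSet_limsup hsm
  have h5 : ∀ᵐ ω ∂μ, ω ∈ limsup s atTop := (prob_compl_eq_zero_iff h4).2 h3
  filter_upwards [h5] with ω hω
  exact mem_limsup_iff_frequently_mem.1 hω

theorem nth_prime_asymp : Tendsto (fun j : ℕ => (Nat.nth Nat.Prime (j - 1) : ℝ) / (j * Real.log j)) atTop (𝓝 1) := by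
  set P : ℕ → ℕ := fun j => Nat.nth Nat.Prime (j - 1) with hP
  have hPt : Tendsto P atTop atTop := by
    have h1 : Tendsto (Nat.nth Nat.Prime) atTop atTop := (Nat.nth_strictMono Nat.infinite_setOfPred_prime).tendsto_atTop
    exact h1.comp (tendsto_sub_atTop_nat 1)
  have hcount : ∀ᶠ j : ℕ in atTop, Nat.primeCounting (P j) = j := by
    filter_upwards [eventually_gt_atTop 0] with j hj
    have h1 : Nat.primeCounting' (Nat.nth Nat.Prime (j - 1) + 1) = (j - 1) + 1 := by
      rw [Nat.primeCounting']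
      exact Nat.count_nth_succ_of_infinite Nat.infinite_setOfPred_prime (j - 1)
    have h2 : Nat.primeCounting (P j) = Nat.primeCounting' (P j + 1) := rfl
    rw [h2, h1]
    omega
  have pnt_nat : Tendsto (fun n : ℕ => (Nat.primeCounting n : ℝ) * Real.log n / n) atTop (𝓝 1) := by
    have h := Pool.Agent.Helper601.PNT.pi_tendsto.comp (tendsto_natCast_atTop_atTop (R := ℝ))
    refine h.congr fun n => ?_
    simp
  have h1 : Tendsto (fun j : ℕ => (j : ℝ) * Real.log (P j) / P j) atTop (𝓝 1) := by
    refine (pnt_nat.comp hPt).congr' ?_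
    filter_upwards [hcount] with j hj
    show (Nat.primeCounting (P j) : ℝ) * Real.log (P j) / (P j) = _
    rw [hj]
  have hPr : Tendsto (fun j : ℕ => (P j : ℝ)) atTop atTop := tendsto_natCast_atTop_atTop.comp hPt
  have hlP : Tendsto (fun j : ℕ => Real.log (P j : ℝ)) atTop atTop := Real.tendsto_log_atTop.comp hPr
  -- the quotient of the logarithms
  have h2 : Tendsto (fun j : ℕ => Real.log j / Real.log (P j)) atTop (𝓝 1) := by
    have e1 := (Real.continuousAt_log (one_ne_zero)).tendsto.comp h1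
    rw [Real.log_one] at e1
    have e2 : Tendsto (fun j : ℕ => Real.log (Real.log (P j)) / Real.log (P j)) atTop (𝓝 0) :=
      (Real.isLittleO_log_id_atTop.tendsto_div_nhds_zero).comp hlP
    have e3 := (e1.div_atTop hlP).sub e2 |>.const_add 1
    rw [sub_zero, add_zero] at e3
    refine e3.congr' ?_
    filter_upwards [hlP.eventually_gt_atTop 0, eventually_gt_atTop 0, hPt.eventually_gt_atTop 0] with j g1 g2 g3
    have hj : (0 : ℝ) < j := by exact_mod_cast g2
    have hp : (0 : ℝ) < P j := by exact_mod_cast g3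
    simp only [Function.comp]
    rw [Real.log_div (by positivity) hp.ne', Real.log_mul hj.ne' g1.ne']
    have := g1.ne'
    field_simp
    ring
  have h3 := (h2.mul h1).inv₀ (by norm_num)
  rw [one_mul, inv_one] at h3
  refine h3.congr' ?_
  filter_upwards [hlP.eventually_gt_atTop 0, eventually_gt_atTop 1, hPt.eventually_gt_atTop 0] with j g1 g2 g3
  have hj : (0 : ℝ) < j := by exact_mod_cast (by omega : 0 < j)
  have hp : (0 : ℝ) < P j := by exact_mod_cast g3
  have hlj : 0 < Real.log (j : ℝ) := Real.log_pos (by exact_mod_cast g2)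
  have := g1.ne'
  show (Real.log j / Real.log (P j) * ((j : ℝ) * Real.log (P j) / P j))⁻¹ = (P j : ℝ) / (j * Real.log j)
  field_simp

end Pool.Agent.R526.PW
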