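import Pool.Agent.R526.RS.Up

set_option autoImplicit false

/-! # Short windows: the probability to be avoided, from below and above -/

namespace Pool.Agent.R526.PW

open MeasureTheory ProbabilityTheory Filter Finset Topology
open Pool.Agent.R526.RS

open scoped Classical

variable {Ω : Type} [MeasurableSpace Ω] (μ : Measure Ω) [IsProbabilityMeasure μ] {ξ : ℕ → Ω → ℕ}

/-- upper bound for all window lengths up to `log²` -/
theorem up (hξ : ∀ p, Measurable (ξ p)) (hind : iIndepFun ξ μ) (A : ℕ) (hA : 1 ≤ A)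
    (W : ℕ → ℕ) (hW : Tendsto (fun p : ℕ => (W p : ℝ) / Dl A p) atTop (𝓝 1)) (δ : ℝ) (hδ0 : 0 < δ)
    (p₀ : ℕ) (hlaw : ∀ p, p.Prime → p₀ ≤ p → Law μ (ξ p) p (W p) δ)
    (e : ℝ) (he : 0 < e) (he1 : e ≤ 1 / 10) :
    ∀ᶠ n : ℕ in atTop, ∀ H : ℕ, (H : ℝ) ≤ (Real.log n) ^ 2 →
      μ.real (Av ξ ((Icc 1 n).filter (fun p : ℕ => p.Prime ∧ (n : ℝ) - (1 - 3 * e) * Dl A n < p))
        (Ioc n (n + H))) ≤
      Real.exp (-((1 - 4 * e) / (1 + e) * (δ * (H / Real.log n)))) := by
  filter_upwards [shifts A hA W hW e he he1 1, primes_left A hA e he he1,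
    basic A (max 10 (2 * p₀)) 1 one_pos] with n hsh hpr hba H hH
  obtain ⟨s0, s1, s2, s3, s4⟩ := hsh
  obtain ⟨-, hpr2⟩ := hpr
  obtain ⟨hL1, hΔL, -, hn1⟩ := hba
  set L := Real.log n with hL
  set Δ := Dl A n with hΔ
  have hL10 : 10 ≤ L := (le_max_left _ _).trans hL1
  have hL0 : 0 < L := by linarith
  have hn10 : (10 : ℝ) ≤ n := (le_max_left _ _).trans hn1
  have hnp : 2 * (p₀ : ℝ) ≤ n := (le_max_right _ _).trans hn1
  have hΔ0 : 0 < Δ := by rw [hΔ, Dl, ← hL]; positivity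
  have hH2 : (H : ℝ) ≤ e * Δ := by linarith
  have hΔn : 10 * Δ ≤ n := by
    have h1 : L ^ A * Δ = n := by
      rw [hΔ, Dl, ← hL]
      field_simp
    have h2 : 10 ≤ L ^ A := hL10.trans (le_self_pow₀ (by linarith) (by omega))
    rw [← h1]
    exact mul_le_mul_of_nonneg_right h2 hΔ0.le
  set R := (Icc 1 n).filter (fun p : ℕ => p.Prime ∧ (n : ℝ) - (1 - 3 * e) * Δ < p) with hR
  rw [Av_real μ hξ hind]
  set a : ℝ := δ * (H / ((1 + e) * Δ)) with ha
  have hden : 0 < (1 + e) * Δ := by positivity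
  have ha0 : 0 ≤ a := by positivity
  have hterm : ∀ p ∈ R, 1 - μ.real {ω | ξ p ω ∈ Ioc n (n + H)} ≤ Real.exp (-a) := by
    intro p hp
    rw [hR, mem_filter, mem_Icc] at hp
    obtain ⟨⟨hp1, hpn⟩, hpp, hp3⟩ := hp
    have h3e : (1 - 3 * e) * Δ ≤ Δ := by
      have : 0 ≤ e * Δ := by positivity
      nlinarith
    have hp0 : p₀ ≤ p := by
      have : (p₀ : ℝ) ≤ p := by linarith
      exact_mod_cast this
    have h5e : (n : ℝ) - (1 + 2 * e) * Δ < p := by
      have : 0 ≤ e * Δ := by positivity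
      nlinarith
    obtain ⟨w1, w2⟩ := s2 p hpn h5e
    have hWpos : (0 : ℝ) < W p := by
      refine lt_of_lt_of_le ?_ w1
      exact mul_pos (by linarith) hΔ0
    have hle : n + H ≤ p + W p := by
      have h6 : ((n + H : ℕ) : ℝ) ≤ ((p + W p : ℕ) : ℝ) := by
        push_cast
        nlinarith
      exact_mod_cast h6
    rw [win_eq μ (hξ p) (hlaw p hpp hp0) n H hpn hle]
    have h7 : a ≤ δ * (H / W p) := by
      rw [ha]
      apply mul_le_mul_of_nonneg_left _ hδ0.le
      exact div_le_div_of_nonneg_left (Nat.cast_nonneg H) hWpos w2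
    have h8 := Real.add_one_le_exp (-a)
    linarith
  refine (Finset.prod_le_prod (fun p _ => ?_) hterm).trans ?_
  · have := measureReal_le_one (μ := μ) (s := {ω | ξ p ω ∈ Ioc n (n + H)})
    linarith
  · rw [prod_const, ← Real.exp_nat_mul]
    apply Real.exp_le_exp.2
    have h1 : (1 - 4 * e) * (Δ / L) * a ≤ (R.card : ℝ) * a := mul_le_mul_of_nonneg_right hpr2 ha0
    have h2 : (1 - 4 * e) * (Δ / L) * a = (1 - 4 * e) / (1 + e) * (δ * (H / L)) := by
      rw [ha]
      field_simp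
    linarith

/-- lower bound for all window lengths up to `log²` -/
theorem low (hξ : ∀ p, Measurable (ξ p)) (hind : iIndepFun ξ μ) (A : ℕ) (hA : 1 ≤ A)
    (W : ℕ → ℕ) (hW : Tendsto (fun p : ℕ => (W p : ℝ) / Dl A p) atTop (𝓝 1)) (δ : ℝ) (hδ0 : 0 < δ)
    (hδ1 : δ ≤ 1) (p₀ : ℕ) (hp₀ : ∀ p, p.Prime → p₀ ≤ p → 1 ≤ W p)
    (hlaw : ∀ p, p.Prime → p₀ ≤ p → Law μ (ξ p) p (W p) δ)
    (e : ℝ) (he : 0 < e) (he1 : e ≤ 1 / 10) :
    ∀ᶠ n : ℕ in atTop, ∀ w : ℕ, (w : ℝ) ≤ (Real.log n) ^ 2 → ∀ F : Finset ℕ, (∀ p ∈ F, p.Prime ∧ p₀ ≤ p) →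
      Real.exp (-((((F.filter (fun p => n < p ∧ p ≤ n + w)).card : ℕ) : ℝ) * (-Real.log δ) + e +
        (1 + 10 * e) * (δ * (w / Real.log n)))) ≤ μ.real (Av ξ F (Ioc n (n + w))) := by
  have hbig : ∀ᶠ n : ℕ in atTop, 2 ^ (A + 2) * (Real.log n) ^ (A + 4) ≤ e * n := by
    have h3 := (Real.isLittleO_pow_log_id_atTop (n := A + 4)).bound
      (show (0 : ℝ) < e / 2 ^ (A + 2) by positivity)
    filter_upwards [tendsto_natCast_atTop_atTop.eventually h3, eventually_ge_atTop 1] with n h4 h5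
    have hn1 : (1 : ℝ) ≤ n := by exact_mod_cast h5
    rw [Real.norm_of_nonneg (pow_nonneg (Real.log_nonneg hn1) _), id,
      Real.norm_of_nonneg (by linarith)] at h4
    calc 2 ^ (A + 2) * (Real.log n) ^ (A + 4) ≤ 2 ^ (A + 2) * (e / 2 ^ (A + 2) * n) :=
          mul_le_mul_of_nonneg_left h4 (by positivity)
      _ = e * n := by field_simp
  filter_upwards [shifts A hA W hW e he he1 (2 ^ (A + 1) + 1), primes_left A hA e he he1,
    basic A 1 1 one_pos, hbig] with n hsh hpr hba hbg w hwr F hF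
  obtain ⟨s0, s1, s2, s3, s4⟩ := hsh
  have hpr1 := hpr.1
  obtain ⟨hL1, hΔL, -, hn1⟩ := hba
  set L := Real.log n with hL
  set Δ := Dl A n with hΔ
  have hL0 : 0 < L := by linarith
  have hΔ0 : 0 < Δ := by
    have : 0 < L ^ 2 := by positivity
    linarith
  have h2A : (1 : ℝ) ≤ 2 ^ (A + 1) := one_le_pow₀ (by norm_num)
  have hwΔ : (w : ℝ) * 2 ^ (A + 1) ≤ e * Δ := by
    refine le_trans ?_ s4
    have h1 : (w : ℝ) * 2 ^ (A + 1) ≤ L ^ 2 * 2 ^ (A + 1) :=
      mul_le_mul_of_nonneg_right hwr (by positivity)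
    have h2 : 0 ≤ L ^ 2 := by positivity
    nlinarith
  have hwΔ' : (w : ℝ) ≤ e * Δ := by
    refine le_trans ?_ hwΔ
    exact le_mul_of_one_le_right (Nat.cast_nonneg w) h2A
  have hwn : w ≤ n := by
    have h1 : e * Δ ≤ n := by
      have h2 : Δ ≤ n := by
        rw [hΔ, Dl, ← hL]
        exact div_le_self (by linarith) (one_le_pow₀ hL1)
      nlinarith
    have : (w : ℝ) ≤ n := hwΔ'.trans h1
    exact_mod_cast this
  rw [Av_real μ hξ hind]
  set R := (Icc 1 n).filter (fun p : ℕ => p.Prime ∧ (n : ℝ) - (1 + 2 * e) * Δ < p) with hR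
  set v : ℝ := 2 * (w * 2 ^ (A + 1) / Δ) with hv
  set u : ℝ := -Real.log δ + v with hu
  set a₀ : ℝ := δ * (w / ((1 - 2 * e) * Δ)) with ha₀
  set r : ℝ := a₀ / (1 - e) with hr
  have hden : 0 < (1 - 2 * e) * Δ := mul_pos (by linarith) hΔ0
  have hlogδ : Real.log δ ≤ 0 := Real.log_nonpos hδ0.le hδ1
  have hv0 : 0 ≤ v := by positivity
  have hu0 : 0 ≤ u := by rw [hu]; linarith
  have ha₀0 : 0 ≤ a₀ := by positivity
  have ha₀2 : a₀ ≤ e := by
    rw [ha₀]
    have h1 : (w : ℝ) / ((1 - 2 * e) * Δ) ≤ e := by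
      rw [div_le_iff₀ hden]
      have h2 : (4 : ℝ) ≤ 2 ^ (A + 1) := by
        calc (4 : ℝ) = 2 ^ 2 := by norm_num
          _ ≤ 2 ^ (A + 1) := pow_le_pow_right₀ (by norm_num) (by omega)
      have h3 : (w : ℝ) * 4 ≤ e * Δ := (mul_le_mul_of_nonneg_left h2 (Nat.cast_nonneg w)).trans hwΔ
      have h4 : 0 ≤ e * Δ := by positivity
      nlinarith
    calc δ * (w / ((1 - 2 * e) * Δ)) ≤ 1 * e := mul_le_mul hδ1 h1 (by positivity) (by norm_num)
      _ = e := one_mul e
  have hr0 : 0 ≤ r := div_nonneg ha₀0 (by linarith)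
  have hterm : ∀ p ∈ F, Real.exp (-((if (n < p ∧ p ≤ n + w) then u else 0) + (if p ∈ R then r else 0))) ≤
      1 - μ.real {ω | ξ p ω ∈ Ioc n (n + w)} := by
    intro p hp
    obtain ⟨hpp, hp0⟩ := hF p hp
    have hWp := hp₀ p hpp hp0
    have hWpr : (1 : ℝ) ≤ W p := by exact_mod_cast hWp
    have hl := hlaw p hpp hp0
    have k1 : (0 : ℝ) ≤ if (n < p ∧ p ≤ n + w) then u else 0 := by split_ifs <;> [exact hu0; exact le_rfl]
    have k2 : (0 : ℝ) ≤ if p ∈ R then r else 0 := by split_ifs <;> [exact hr0; exact le_rfl]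
    rcases lt_or_ge n p with h | h
    · rcases lt_or_ge (n + w) p with h' | h'
      · rw [win_zero μ (hξ p) hl hWp n w (Or.inr h'), sub_zero]
        apply Real.exp_le_one_iff.2
        linarith
      · rw [if_pos ⟨h, h'⟩]
        have h1 := win_le μ (hξ p) hl hWp hδ0.le hδ1 n w
        have h2 := s3 p h (by omega)
        have h3' : (w : ℝ) / W p ≤ w * 2 ^ (A + 1) / Δ := by
          rw [div_le_div_iff₀ (by linarith) hΔ0]
          have h5 : (w : ℝ) * Δ = w * 2 ^ (A + 1) * ((1 / 2) ^ (A + 1) * Δ) := by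
            have : (2 : ℝ) ^ (A + 1) * (1 / 2) ^ (A + 1) = 1 := by
              rw [← mul_pow]; norm_num
            calc (w : ℝ) * Δ = w * Δ * (2 ^ (A + 1) * (1 / 2) ^ (A + 1)) := by rw [this, mul_one]
              _ = _ := by ring
          rw [h5]
          exact mul_le_mul_of_nonneg_left h2 (by positivity)
        have h3 : (w : ℝ) / W p ≤ 1 / 2 := by
          refine h3'.trans ?_
          rw [div_le_iff₀ hΔ0]
          have : e * Δ ≤ 1 / 2 * Δ := mul_le_mul_of_nonneg_right (by linarith) hΔ0.le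
          linarith
        have h4 : Real.exp (-u) ≤ δ * (1 - w / W p) := by
          have h5 : Real.exp (-u) = δ * Real.exp (-v) := by
            rw [hu, neg_add, neg_neg, Real.exp_add, Real.exp_log hδ0]
          rw [h5]
          apply mul_le_mul_of_nonneg_left _ hδ0.le
          have h6 : (0 : ℝ) ≤ w / W p := by positivity
          apply exp_le_one_sub _ _ h6 (by linarith)
          rw [div_le_iff₀ (by linarith), hv]
          nlinarith
        have h5 : Real.exp (-(u + if p ∈ R then r else 0)) ≤ Real.exp (-u) := by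
          apply Real.exp_le_exp.2
          linarith
        linarith
    · rcases le_or_gt (p + W p) n with h' | h'
      · rw [win_zero μ (hξ p) hl hWp n w (Or.inl h'), sub_zero]
        apply Real.exp_le_one_iff.2
        linarith
      · have hpR : p ∈ R := by
          rw [hR, mem_filter, mem_Icc]
          exact ⟨⟨hpp.one_lt.le, h⟩, hpp, s1 p h h'⟩
        rw [if_pos hpR]
        have h1 := win_le' μ (hξ p) hl hWp hδ0.le n w h
        obtain ⟨h2, -⟩ := s2 p h (s1 p h h')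
        have h3 : δ * (w / W p) ≤ a₀ := by
          rw [ha₀]
          apply mul_le_mul_of_nonneg_left _ hδ0.le
          exact div_le_div_of_nonneg_left (Nat.cast_nonneg w) hden h2
        have h4 : Real.exp (-r) ≤ 1 - a₀ := by
          apply exp_le_one_sub _ _ ha₀0 (by linarith)
          rw [hr]
          exact div_le_div_of_nonneg_left ha₀0 (by linarith) (by linarith)
        have h5 : Real.exp (-((if (n < p ∧ p ≤ n + w) then u else 0) + r)) ≤ Real.exp (-r) := by
          apply Real.exp_le_exp.2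
          linarith
        linarith
  refine le_trans ?_ (Finset.prod_le_prod (fun p _ => (Real.exp_pos _).le) hterm)
  rw [← Real.exp_sum]
  apply Real.exp_le_exp.2
  rw [sum_neg_distrib, neg_le_neg_iff, sum_add_distrib, ← sum_filter, ← sum_filter, sum_const, sum_const,
    nsmul_eq_mul, nsmul_eq_mul]
  set T := F.filter (fun p => n < p ∧ p ≤ n + w) with hT
  have c1 : (T.card : ℝ) ≤ w := by
    have h1 : T ⊆ Ioc n (n + w) := by
      intro p hp
      rw [hT, mem_filter] at hp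
      rw [mem_Ioc]
      exact hp.2
    have h2 := card_le_card h1
    rw [Nat.card_Ioc, Nat.add_sub_cancel_left] at h2
    exact_mod_cast h2
  have c2 : (((F.filter (fun p => p ∈ R)).card : ℕ) : ℝ) ≤ (1 + 4 * e) * (Δ / L) := by
    refine le_trans ?_ hpr1
    exact_mod_cast card_le_card (fun p hp => (mem_filter.1 hp).2)
  have c3 : (T.card : ℝ) * v ≤ e := by
    calc (T.card : ℝ) * v ≤ L ^ 2 * (2 * (L ^ 2 * 2 ^ (A + 1) / Δ)) := by
          rw [hv]
          apply mul_le_mul (c1.trans hwr) _ (by positivity) (by positivity)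
          apply mul_le_mul_of_nonneg_left _ (by norm_num)
          apply div_le_div_of_nonneg_right _ hΔ0.le
          exact mul_le_mul_of_nonneg_right hwr (by positivity)
      _ = 2 ^ (A + 2) * L ^ 4 / Δ := by ring
      _ ≤ e := by
          rw [div_le_iff₀ hΔ0, hΔ, Dl, ← hL, mul_div_assoc', le_div_iff₀ (by positivity)]
          calc 2 ^ (A + 2) * L ^ 4 * L ^ A = 2 ^ (A + 2) * L ^ (A + 4) := by ring
            _ ≤ e * n := hbg
  have c4 : (((F.filter (fun p => p ∈ R)).card : ℕ) : ℝ) * r ≤ (1 + 4 * e) * (Δ / L) * r :=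
    mul_le_mul_of_nonneg_right c2 hr0
  have c5 : (1 + 4 * e) * (Δ / L) * r ≤ (1 + 10 * e) * (δ * (w / L)) := by
    rw [hr, ha₀]
    have h1 : (1 + 4 * e) * (Δ / L) * (δ * (w / ((1 - 2 * e) * Δ)) / (1 - e)) =
        (1 + 4 * e) / ((1 - 2 * e) * (1 - e)) * (δ * (w / L)) := by
      have : (1 - 2 * e) ≠ 0 := by linarith
      have : (1 - e) ≠ 0 := by linarith
      field_simp
    rw [h1]
    have h2 : (1 + 4 * e) / ((1 - 2 * e) * (1 - e)) ≤ 1 + 10 * e := by
      rw [div_le_iff₀ (mul_pos (by linarith) (by linarith))]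
      have h3 : 0 ≤ e * (1 / 10 - e) := mul_nonneg he.le (by linarith)
      have h4 : 0 ≤ e ^ 3 := by positivity
      nlinarith
    exact mul_le_mul_of_nonneg_right h2 (by positivity)
  have c6 : (T.card : ℝ) * u = T.card * (-Real.log δ) + T.card * v := by rw [hu]; ring
  linarith

end Pool.Agent.R526.PW
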