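import Pool.Agent.R526.PW.Ind

set_option autoImplicit false

/-! # Moved primes just above the powers of a real number -/

namespace Pool.Agent.R526.PW

open MeasureTheory ProbabilityTheory Filter Finset Topology
open Pool.Agent.R526.RS

open scoped Classical

variable {Ω : Type} [MeasurableSpace Ω] (μ : Measure Ω) [IsProbabilityMeasure μ] {ξ : ℕ → Ω → ℕ}

/-- the largest integer below `α ^ j` -/
noncomputable def N (α : ℝ) (j : ℕ) : ℕ := ⌈α ^ j⌉₊ - 1

theorem N_bd (α : ℝ) (hα : 1 < α) (j : ℕ) : (N α j : ℝ) ≤ α ^ j ∧ α ^ j - 1 ≤ N α j ∧ N α j + 1 = ⌈α ^ j⌉₊ := by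
  have h1 : (1 : ℝ) ≤ α ^ j := one_le_pow₀ hα.le
  have h2 : 1 ≤ ⌈α ^ j⌉₊ := Nat.one_le_ceil_iff.2 (by linarith)
  have h3 : N α j + 1 = ⌈α ^ j⌉₊ := by unfold N; omega
  have h4 : (N α j : ℝ) + 1 = ((⌈α ^ j⌉₊ : ℕ) : ℝ) := by exact_mod_cast h3
  have h5 := Nat.ceil_lt_add_one (show 0 ≤ α ^ j by linarith)
  have h6 := Nat.le_ceil (α ^ j)
  exact ⟨by linarith, by linarith, h3⟩

theorem N_top (α : ℝ) (hα : 1 < α) : Tendsto (N α) atTop atTop := by
  have h1 : Tendsto (fun j : ℕ => α ^ j - 1) atTop atTop :=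
    (tendsto_pow_atTop_atTop_of_one_lt hα).atTop_add tendsto_const_nhds
  have h2 : Tendsto (fun j : ℕ => (N α j : ℝ)) atTop atTop := tendsto_atTop_mono (fun j => (N_bd α hα j).2.1) h1
  exact tendsto_natCast_atTop_iff.1 h2

theorem N_log (α : ℝ) (hα : 1 < α) : ∀ᶠ j : ℕ in atTop, (j : ℝ) * Real.log α - 1 ≤ Real.log (N α j) ∧
    Real.log (N α j) ≤ j * Real.log α := by
  filter_upwards [(tendsto_pow_atTop_atTop_of_one_lt hα).eventually_ge_atTop 2] with j hj
  obtain ⟨h1, h2, -⟩ := N_bd α hα j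
  rw [← Real.log_pow]
  constructor
  · have h4 : Real.log (α ^ j / 2) ≤ Real.log (N α j) :=
      Real.log_le_log (by positivity) (by linarith)
    rw [Real.log_div (by positivity) (by norm_num)] at h4
    have := Real.log_two_lt_d9
    linarith
  · exact Real.log_le_log (by linarith) (by linarith)

/-- the length of the window -/
noncomputable def w (b : ℝ) (j : ℕ) : ℕ := ⌊b * (j * Real.log j)⌋₊ + 1

theorem w_bd (b : ℝ) (hb : 0 < b) (j : ℕ) : b * (j * Real.log j) ≤ w b j ∧ (w b j : ℝ) ≤ b * (j * Real.log j) + 1 := by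
  have hl : 0 ≤ (j : ℝ) * Real.log j := mul_nonneg (Nat.cast_nonneg j) (Real.log_natCast_nonneg j)
  unfold w
  push_cast
  have h1 := Nat.floor_le (show 0 ≤ b * (j * Real.log j) by positivity)
  have h2 := Nat.lt_floor_add_one (b * (j * Real.log j))
  exact ⟨by linarith, by linarith⟩

theorem smallR (α : ℝ) (hα : 1 < α) (b : ℝ) (hb : 0 < b) : ∀ᶠ j : ℕ in atTop,
    (w b j : ℝ) ≤ (Real.log (N α j)) ^ 2 := by
  set l := Real.log α with hl
  have hl0 : 0 < l := Real.log_pos hα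
  have h1 := (Real.isLittleO_log_id_atTop).bound (show (0 : ℝ) < l ^ 2 / (8 * b) by positivity)
  filter_upwards [tendsto_natCast_atTop_atTop.eventually h1, N_log α hα,
    tendsto_natCast_atTop_atTop.eventually_ge_atTop (max 3 (3 / l))] with j h2 h3 h4
  have hj : (3 : ℝ) ≤ j := (le_max_left _ _).trans h4
  have hj2 : (3 : ℝ) ≤ j * l := by
    have := (le_max_right _ _).trans h4
    rwa [div_le_iff₀ hl0] at this
  have hlj : 0 ≤ Real.log j := Real.log_nonneg (by linarith)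
  rw [Real.norm_of_nonneg hlj, id, Real.norm_of_nonneg (by linarith)] at h2
  have h5 : (j : ℝ) * l * (2 / 3) ≤ Real.log (N α j) := by linarith [h3.1]
  have h6 : ((j : ℝ) * l * (2 / 3)) ^ 2 ≤ (Real.log (N α j)) ^ 2 := pow_le_pow_left₀ (by positivity) h5 2
  have h7 : b * (j * Real.log j) ≤ (j * l) ^ 2 / 8 := by
    calc b * (j * Real.log j) ≤ b * (j * (l ^ 2 / (8 * b) * j)) := by
          apply mul_le_mul_of_nonneg_left _ hb.le
          exact mul_le_mul_of_nonneg_left h2 (by linarith)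
      _ = (j * l) ^ 2 / 8 := by field_simp
  have h8 := (w_bd b hb j).2
  nlinarith

theorem upperR0 (hξ : ∀ p, Measurable (ξ p)) (hind : iIndepFun ξ μ) (A : ℕ) (hA : 1 ≤ A)
    (W : ℕ → ℕ) (hW : Tendsto (fun p : ℕ => (W p : ℝ) / Dl A p) atTop (𝓝 1)) (δ : ℝ) (hδ0 : 0 < δ)
    (p₀ : ℕ) (hlaw : ∀ p, p.Prime → p₀ ≤ p → Law μ (ξ p) p (W p) δ)
    (α : ℝ) (hα : 1 < α) (b : ℝ) (hb : Real.log α < δ * b) :
    ∀ᵐ ω ∂μ, ∀ᶠ j : ℕ in atTop, ∃ p : ℕ, p.Prime ∧ α ^ j ≤ ξ p ω ∧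
      (ξ p ω : ℝ) ≤ α ^ j + b * (j * Real.log j) + 1 := by
  have hlg : 0 < Real.log α := Real.log_pos hα
  have hb0 : 0 < b := by
    by_contra hc
    have : δ * b ≤ 0 := mul_nonpos_of_nonneg_of_nonpos hδ0.le (by linarith)
    linarith
  set q := δ * b / Real.log α with hq
  have hq1 : 1 < q := by
    rw [hq, lt_div_iff₀ (by linarith), one_mul]
    exact hb
  set e := min (1 / 10) ((q - 1) / (10 * q)) with he
  have he0 : 0 < e := lt_min (by norm_num) (div_pos (by linarith) (by linarith))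
  have he1 : e ≤ 1 / 10 := min_le_left _ _
  have he2 : e * (10 * q) ≤ q - 1 := by
    have := min_le_right (1 / 10) ((q - 1) / (10 * q))
    rwa [← he, le_div_iff₀ (by linarith)] at this
  set r := (1 + q) / 2 with hr
  have hr1 : 1 < r := by rw [hr]; linarith
  have hcoef : r ≤ (1 - 4 * e) / (1 + e) * q := by
    have h1 : 1 - 5 * e ≤ (1 - 4 * e) / (1 + e) := by
      rw [le_div_iff₀ (by linarith)]
      nlinarith
    have h2 : (1 - 5 * e) * q ≤ (1 - 4 * e) / (1 + e) * q := mul_le_mul_of_nonneg_right h1 (by linarith)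
    rw [hr]
    nlinarith
  have hU := (N_top α hα).eventually (up μ hξ hind A hA W hW δ hδ0 p₀ hlaw e he0 he1)
  have hbc := bc_sum μ (fun j : ℕ => Av ξ ((Icc 1 (N α j)).filter (fun p : ℕ => p.Prime ∧
      (N α j : ℝ) - (1 - 3 * e) * Dl A (N α j) < p))
        (Ioc (N α j) (N α j + w b j))) (fun j : ℕ => (j : ℝ) ^ (-r))
      (fun j => by positivity) (Real.summable_nat_rpow.2 (by linarith)) (by
        filter_upwards [hU, smallR α hα b hb0, N_log α hα, eventually_ge_atTop 3,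
          tendsto_natCast_atTop_atTop.eventually_ge_atTop (2 / Real.log α)] with j h1 h2 h3 h4 h9
        refine (h1 _ h2).trans ?_
        have hj : (3 : ℝ) ≤ j := by exact_mod_cast h4
        have hl : 0 ≤ Real.log j := Real.log_nonneg (by linarith)
        rw [div_le_iff₀ hlg] at h9
        rw [Real.rpow_def_of_pos (by linarith)]
        apply Real.exp_le_exp.2
        rw [mul_neg]
        apply neg_le_neg
        have h5 : 0 < Real.log (N α j) := by linarith [h3.1]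
        have h6 : b * (j * Real.log j) ≤ (w b j : ℝ) := (w_bd b hb0 j).1
        have h7 : b * Real.log j / Real.log α ≤ (w b j : ℝ) / Real.log (N α j) := by
          calc b * Real.log j / Real.log α = b * (j * Real.log j) / (j * Real.log α) := by
                have : (j : ℝ) ≠ 0 := by linarith
                field_simp
            _ ≤ _ := div_le_div₀ (Nat.cast_nonneg _) h6 h5 h3.2
        have h8 : 0 ≤ (1 - 4 * e) / (1 + e) := div_nonneg (by linarith) (by linarith)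
        calc Real.log j * r ≤ Real.log j * ((1 - 4 * e) / (1 + e) * q) := mul_le_mul_of_nonneg_left hcoef hl
          _ = (1 - 4 * e) / (1 + e) * (δ * (b * Real.log j / Real.log α)) := by
              rw [hq]
              field_simp
          _ ≤ _ := by
              apply mul_le_mul_of_nonneg_left _ h8
              exact mul_le_mul_of_nonneg_left h7 hδ0.le)
  filter_upwards [hbc] with ω hω
  filter_upwards [hω, eventually_ge_atTop 3] with j hj hj3
  rw [mem_Av] at hj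
  push Not at hj
  obtain ⟨p, hp, hp2⟩ := hj
  rw [mem_filter] at hp
  rw [mem_Ioc] at hp2
  obtain ⟨n1, n2, n3⟩ := N_bd α hα j
  have hj' : (3 : ℝ) ≤ j := by exact_mod_cast hj3
  have hl : 0 ≤ Real.log j := Real.log_nonneg (by linarith)
  refine ⟨p, hp.2.1, ?_, ?_⟩
  · have h1 : ⌈α ^ j⌉₊ ≤ ξ p ω := by omega
    exact Nat.ceil_le.1 h1
  · have h4 : (⌊b * (j * Real.log j)⌋₊ : ℝ) ≤ b * (j * Real.log j) := Nat.floor_le (by positivity)
    have h5 : ξ p ω ≤ ⌈α ^ j⌉₊ + ⌊b * (j * Real.log j)⌋₊ := by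
      have := hp2.2
      unfold w at this
      omega
    have h6 : (ξ p ω : ℝ) ≤ (⌈α ^ j⌉₊ : ℝ) + ⌊b * (j * Real.log j)⌋₊ := by exact_mod_cast h5
    have h7 := Nat.ceil_lt_add_one (show 0 ≤ α ^ j by positivity)
    linarith

theorem jlog : Tendsto (fun j : ℕ => (j : ℝ) * Real.log j) atTop atTop :=
  tendsto_natCast_atTop_atTop.atTop_mul_atTop₀ (Real.tendsto_log_atTop.comp tendsto_natCast_atTop_atTop)

theorem upperR (hξ : ∀ p, Measurable (ξ p)) (hind : iIndepFun ξ μ) (A : ℕ) (hA : 1 ≤ A)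
    (W : ℕ → ℕ) (hW : Tendsto (fun p : ℕ => (W p : ℝ) / Dl A p) atTop (𝓝 1)) (δ : ℝ) (hδ0 : 0 < δ)
    (p₀ : ℕ) (hlaw : ∀ p, p.Prime → p₀ ≤ p → Law μ (ξ p) p (W p) δ)
    (α : ℝ) (hα : 1 < α) (b : ℝ) (hb : Real.log α < δ * b) :
    ∀ᵐ ω ∂μ, ∀ᶠ j : ℕ in atTop, ∃ p : ℕ, p.Prime ∧ α ^ j ≤ ξ p ω ∧
      (ξ p ω : ℝ) ≤ α ^ j + b * (j * Real.log j) := by
  set b' := (b + Real.log α / δ) / 2 with hb'
  have h1 : Real.log α / δ < b := by
    rw [div_lt_iff₀ hδ0]
    linarith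
  have h2 : Real.log α < δ * b' := by
    have h3 : δ * b' = (δ * b + Real.log α) / 2 := by
      rw [hb']
      field_simp
    linarith
  have h4 : b' < b := by rw [hb']; linarith
  filter_upwards [upperR0 μ hξ hind A hA W hW δ hδ0 p₀ hlaw α hα b' h2] with ω hω
  filter_upwards [hω, jlog.eventually_ge_atTop (1 / (b - b'))] with j hj hj2
  obtain ⟨p, hp, g1, g2⟩ := hj
  refine ⟨p, hp, g1, g2.trans ?_⟩
  rw [div_le_iff₀ (by linarith)] at hj2
  linarith

/-- the primes near `N α j` -/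
noncomputable def F (α η : ℝ) (p₀ j₀ j : ℕ) : Finset ℕ :=
  if j₀ ≤ j then (Icc 1 (2 * N α j)).filter (fun p : ℕ => p.Prime ∧ p₀ ≤ p ∧ (1 - η) * N α j < p ∧
    (p : ℝ) ≤ (1 + η) * N α j) else ∅

theorem F_dis (α : ℝ) (hα : 1 < α) (η : ℝ) (hη0 : 0 < η) (hη1 : η ≤ 1 / 2) (hη : 1 + η < (1 - η) * α) (p₀ : ℕ) :
    ∃ j₀ : ℕ, ∀ i j, i ≠ j → Disjoint (F α η p₀ j₀ i) (F α η p₀ j₀ j) := by
  set κ := (1 - η) * α - (1 + η) with hκ
  have hκ0 : 0 < κ := by rw [hκ]; linarith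
  obtain ⟨j₀, hj₀⟩ := eventually_atTop.1 ((tendsto_pow_atTop_atTop_of_one_lt hα).eventually_ge_atTop (1 / κ))
  have hdis : ∀ i j, i < j → Disjoint (F α η p₀ j₀ i) (F α η p₀ j₀ j) := by
    intro i j hij
    rw [disjoint_left]
    intro p hp1 hp2
    unfold F at hp1 hp2
    by_cases hi : j₀ ≤ i
    · rw [if_pos hi, mem_filter] at hp1
      rw [if_pos (by omega), mem_filter] at hp2
      have h1 := hp1.2.2.2.2
      have h2 := hp2.2.2.2.1
      have h3 := hj₀ i hi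
      rw [div_le_iff₀ hκ0] at h3
      have h4 := (N_bd α hα i).1
      have h5 := (N_bd α hα j).2.1
      have h6 : α ^ (i + 1) ≤ α ^ j := pow_le_pow_right₀ hα.le hij
      rw [pow_succ] at h6
      have h7 : (1 - η) * (α ^ i * α - 1) ≤ (1 - η) * N α j := mul_le_mul_of_nonneg_left (by linarith) (by linarith)
      have h8 : (1 + η) * N α i ≤ (1 + η) * α ^ i := mul_le_mul_of_nonneg_left h4 (by linarith)
      have h9 : (1 - η) * (α ^ i * α - 1) - (1 + η) * α ^ i = α ^ i * κ - (1 - η) := by rw [hκ]; ring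
      linarith
    · rw [if_neg hi] at hp1
      simp at hp1
  refine ⟨j₀, fun i j hij => ?_⟩
  rcases lt_or_gt_of_ne hij with h | h
  · exact hdis i j h
  · exact (hdis j i h).symm

theorem capture (hξ : ∀ p, Measurable (ξ p)) (A : ℕ) (hA : 1 ≤ A)
    (W : ℕ → ℕ) (hW : Tendsto (fun p : ℕ => (W p : ℝ) / Dl A p) atTop (𝓝 1)) (δ : ℝ)
    (p₀ : ℕ) (hp₀ : ∀ p, p.Prime → p₀ ≤ p → 1 ≤ W p) (hlaw : ∀ p, p.Prime → p₀ ≤ p → Law μ (ξ p) p (W p) δ)
    (α : ℝ) (hα : 1 < α) (b : ℝ) (hb0 : 0 < b) (η : ℝ) (hη0 : 0 < η) (hη1 : η ≤ 1 / 2) (j₀ : ℕ) :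
    ∀ᵐ ω ∂μ, ∀ᶠ j : ℕ in atTop, ∀ p : ℕ, p.Prime → ξ p ω ∈ Ioc (N α j) (N α j + w b j) → p ∈ F α η p₀ j₀ j := by
  have hae : ∀ᵐ ω ∂μ, ∀ p : ℕ, p.Prime → p₀ ≤ p → p ≤ ξ p ω ∧ ξ p ω ≤ p + W p := by
    rw [ae_all_iff]
    intro p
    by_cases hp : p.Prime ∧ p₀ ≤ p
    · filter_upwards [ae_mem μ (hξ p) (hlaw p hp.1 hp.2) (hp₀ p hp.1 hp.2)] with ω hω _ _
      exact hω
    · filter_upwards with ω h1 h2
      exact absurd ⟨h1, h2⟩ hp
  filter_upwards [hae] with ω hω2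
  set M := ∑ p ∈ range p₀, ξ p ω with hM
  have h1 : ∀ᶠ m : ℕ in atTop, (Real.log (m : ℝ)) ^ 2 ≤ η * m := by
    have h1 := (Real.isLittleO_pow_log_id_atTop (n := 2)).def hη0
    filter_upwards [tendsto_natCast_atTop_atTop.eventually h1] with m h2
    rw [Real.norm_of_nonneg (by positivity), id, Real.norm_of_nonneg (Nat.cast_nonneg m)] at h2
    exact h2
  have hlogt : Tendsto (fun j : ℕ => Real.log (N α j : ℝ)) atTop atTop :=
    Real.tendsto_log_atTop.comp (tendsto_natCast_atTop_atTop.comp (N_top α hα))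
  filter_upwards [(N_top α hα).eventually_ge_atTop M, smallR α hα b hb0,
    (N_top α hα).eventually (shifts A hA W hW (1 / 10) (by norm_num) (by norm_num) 1),
    hlogt.eventually_ge_atTop (max 1 (2 / η)), (N_top α hα).eventually h1, eventually_ge_atTop j₀]
    with j g1 g2 g3' g4 g5 g6 p hp hin
  have g3 := g3'.2.1
  rw [mem_Ioc] at hin
  have hpp : p₀ ≤ p := by
    by_contra hc
    have h6 : ξ p ω ≤ M := by
      rw [hM]
      exact single_le_sum (f := fun p => ξ p ω) (fun _ _ => Nat.zero_le _) (mem_range.2 (by omega))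
    omega
  obtain ⟨k1, k2⟩ := hω2 p hp hpp
  have hN0 : (0 : ℝ) ≤ N α j := Nat.cast_nonneg _
  have k4 : (p : ℝ) ≤ (1 + η) * N α j := by
    have : (p : ℝ) ≤ N α j + w b j := by exact_mod_cast k1.trans hin.2
    linarith
  have hg4 : 1 ≤ Real.log (N α j) := (le_max_left _ _).trans g4
  have hg4' : 2 / η ≤ Real.log (N α j) := (le_max_right _ _).trans g4
  have hN1 : (0 : ℝ) < N α j := by
    by_contra hc
    have : (N α j : ℝ) = 0 := by linarith
    rw [this, Real.log_zero] at hg4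
    linarith
  have k5 : (1 - η) * N α j < p := by
    rcases le_or_gt p (N α j) with h | h
    · have h6 := g3 p h (by omega)
      have h7 : (1 + 2 * (1 / 10)) * Dl A (N α j) ≤ η * N α j := by
        have h8 : (Real.log (N α j)) ≤ (Real.log (N α j)) ^ A := le_self_pow₀ hg4 (by omega)
        have h9 : Dl A (N α j) ≤ N α j / (2 / η) := by
          unfold Dl
          exact div_le_div_of_nonneg_left hN0 (by positivity) (by linarith)
        have h10 : (N α j : ℝ) / (2 / η) = η * N α j / 2 := by field_simp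
        rw [h10] at h9
        have h11 : 0 < η * N α j := by positivity
        linarith
      linarith
    · have h6 : (N α j : ℝ) < p := by exact_mod_cast h
      have h7 : 0 ≤ η * N α j := by positivity
      linarith
  have k6 : p ≤ 2 * N α j := by
    have : (p : ℝ) ≤ 2 * N α j := by
      have : η * N α j ≤ 1 * N α j := mul_le_mul_of_nonneg_right (by linarith) hN0
      linarith
    exact_mod_cast this
  unfold F
  rw [if_pos g6, mem_filter, mem_Icc]
  exact ⟨⟨hp.one_lt.le, k6⟩, hp, hpp, k5, k4⟩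

/-- a suitable `η` -/
theorem eta (α : ℝ) (hα : 1 < α) : ∃ η : ℝ, 0 < η ∧ η ≤ 1 / 2 ∧ 1 + η < (1 - η) * α := by
  refine ⟨(α - 1) / (2 * (α + 1)), div_pos (by linarith) (by linarith), ?_, ?_⟩
  · rw [div_le_iff₀ (by linarith)]
    linarith
  · have h1 : (1 - (α - 1) / (2 * (α + 1))) * α - (1 + (α - 1) / (2 * (α + 1))) = (α - 1) / 2 := by
      have : α + 1 ≠ 0 := by linarith
      field_simp
      ring
    have h2 : 0 < (α - 1) / 2 := by linarith
    linarith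

/-- from the windows to the statement -/
theorem finish (hξ : ∀ p, Measurable (ξ p)) (A : ℕ) (hA : 1 ≤ A)
    (W : ℕ → ℕ) (hW : Tendsto (fun p : ℕ => (W p : ℝ) / Dl A p) atTop (𝓝 1)) (δ : ℝ)
    (p₀ : ℕ) (hp₀ : ∀ p, p.Prime → p₀ ≤ p → 1 ≤ W p) (hlaw : ∀ p, p.Prime → p₀ ≤ p → Law μ (ξ p) p (W p) δ)
    (α : ℝ) (hα : 1 < α) (b : ℝ) (hb0 : 0 < b) (η : ℝ) (hη0 : 0 < η) (hη1 : η ≤ 1 / 2) (j₀ : ℕ)
    (h : ∀ᵐ ω ∂μ, ∃ᶠ j : ℕ in atTop, ω ∈ Av ξ (F α η p₀ j₀ j) (Ioc (N α j) (N α j + w b j))) :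
    ∀ᵐ ω ∂μ, ∃ᶠ j : ℕ in atTop, ∀ p : ℕ, p.Prime → ¬ (α ^ j ≤ ξ p ω ∧
      (ξ p ω : ℝ) ≤ α ^ j + b * (j * Real.log j)) := by
  filter_upwards [h, capture μ hξ A hA W hW δ p₀ hp₀ hlaw α hα b hb0 η hη0 hη1 j₀] with ω hω hc
  refine (hω.and_eventually hc).mono ?_
  rintro j ⟨h1, h2⟩ p hp ⟨hp1, hp2⟩
  rw [mem_Av] at h1
  have hin : ξ p ω ∈ Ioc (N α j) (N α j + w b j) := by
    obtain ⟨-, -, n3⟩ := N_bd α hα j
    have h3 : ⌈α ^ j⌉₊ ≤ ξ p ω := Nat.ceil_le.2 hp1
    have h5 : ξ p ω - ⌈α ^ j⌉₊ ≤ ⌊b * (j * Real.log j)⌋₊ := by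
      apply Nat.le_floor
      rw [Nat.cast_sub h3]
      have := Nat.le_ceil (α ^ j)
      linarith
    rw [mem_Ioc]
    unfold w
    omega
  exact h1 p (h2 p hp hin) hin

theorem lowerR_pos (hξ : ∀ p, Measurable (ξ p)) (hind : iIndepFun ξ μ) (A : ℕ) (hA : 1 ≤ A)
    (W : ℕ → ℕ) (hW : Tendsto (fun p : ℕ => (W p : ℝ) / Dl A p) atTop (𝓝 1))
    (p₀ : ℕ) (hp₀ : ∀ p, p.Prime → p₀ ≤ p → 1 ≤ W p) (hlaw : ∀ p, p.Prime → p₀ ≤ p → Law μ (ξ p) p (W p) 1)
    (α : ℝ) (hα : 1 < α) (b : ℝ) (hb0 : 0 < b) (hb : b < Real.log α) :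
    ∀ᵐ ω ∂μ, ∃ᶠ j : ℕ in atTop, ∀ p : ℕ, p.Prime → ¬ (α ^ j ≤ ξ p ω ∧
      (ξ p ω : ℝ) ≤ α ^ j + b * (j * Real.log j)) := by
  have hlg : 0 < Real.log α := Real.log_pos hα
  set q := b / Real.log α with hq
  have hq0 : 0 < q := div_pos hb0 (by linarith)
  have hq1 : q < 1 := by
    rw [hq, div_lt_iff₀ (by linarith), one_mul]
    exact hb
  set e := min (1 / 10) ((1 - q) / 40) with he
  have he0 : 0 < e := lt_min (by norm_num) (by linarith)
  have he1 : e ≤ 1 / 10 := min_le_left _ _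
  have he2 : e ≤ (1 - q) / 40 := min_le_right _ _
  obtain ⟨η, hη0, hη1, hη⟩ := eta α hα
  obtain ⟨j₀, hdis⟩ := F_dis α hα η hη0 hη1 hη p₀
  apply finish μ hξ A hA W hW 1 p₀ hp₀ hlaw α hα b hb0 η hη0 hη1 j₀
  apply bc2 μ (fun j => Av ξ (F α η p₀ j₀ j) (Ioc (N α j) (N α j + w b j))) (fun j => Av_meas hξ _ _)
    (indep μ hξ hind (F α η p₀ j₀) (fun j => Ioc (N α j) (N α j + w b j)) hdis)
  have hlogt : Tendsto (fun j : ℕ => Real.log (j : ℝ)) atTop atTop :=
    Real.tendsto_log_atTop.comp tendsto_natCast_atTop_atTop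
  filter_upwards [(N_top α hα).eventually (low μ hξ hind A hA W hW 1 one_pos le_rfl p₀ hp₀ hlaw e he0 he1),
    smallR α hα b hb0, N_log α hα, hlogt.eventually_ge_atTop (max 1 (max (1 / (b * e)) (2 * e / (1 - q)))),
    eventually_ge_atTop 3, tendsto_natCast_atTop_atTop.eventually_ge_atTop (1 / (e * Real.log α))]
    with j h1 h2 h3 h4 h5 h6
  have h7 := h1 (w b j) h2 (F α η p₀ j₀ j) (fun p hp => by
    unfold F at hp
    split_ifs at hp
    · rw [mem_filter] at hp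
      exact ⟨hp.2.1, hp.2.2.1⟩
    · simp at hp)
  refine le_trans ?_ h7
  have hj : (3 : ℝ) ≤ j := by exact_mod_cast h5
  have hl1 : 1 ≤ Real.log j := (le_max_left _ _).trans h4
  have hl2 : 1 / (b * e) ≤ Real.log j := (le_max_left _ _).trans ((le_max_right _ _).trans h4)
  have hl3 : 2 * e / (1 - q) ≤ Real.log j := (le_max_right _ _).trans ((le_max_right _ _).trans h4)
  rw [div_le_iff₀ (by positivity)] at hl2
  rw [div_le_iff₀ (by linarith)] at hl3
  rw [div_le_iff₀ (mul_pos he0 (by linarith))] at h6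
  rw [Real.log_one, neg_zero, mul_zero, zero_add, one_mul]
  have h8 : (1 : ℝ) / j = Real.exp (-Real.log j) := by
    rw [Real.exp_neg, Real.exp_log (by linarith), one_div]
  rw [h8]
  apply Real.exp_le_exp.2
  apply neg_le_neg
  have h9 : (w b j : ℝ) ≤ (1 + e) * (b * (j * Real.log j)) := by
    have h10 : (w b j : ℝ) ≤ b * (j * Real.log j) + 1 := (w_bd b hb0 j).2
    have h11 : 1 ≤ e * (b * (j * Real.log j)) := by
      have h12 : 1 * 1 ≤ (Real.log j * (b * e)) * j := mul_le_mul hl2 (by linarith) (by norm_num) (by positivity)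
      calc (1 : ℝ) = 1 * 1 := by norm_num
        _ ≤ _ := h12
        _ = _ := by ring
    linarith
  have h10 : (1 - e) * (j * Real.log α) ≤ Real.log (N α j) := by
    have h11 : 1 ≤ e * (j * Real.log α) := by linarith [h6]
    have := h3.1
    linarith
  have hpos : 0 < (1 - e) * (j * Real.log α) := by
    apply mul_pos (by linarith)
    apply mul_pos (by linarith) (by linarith)
  have h11 : (w b j : ℝ) / Real.log (N α j) ≤ (1 + e) / (1 - e) * (q * Real.log j) := by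
    calc (w b j : ℝ) / Real.log (N α j) ≤ (1 + e) * (b * (j * Real.log j)) / ((1 - e) * (j * Real.log α)) :=
          div_le_div₀ (by positivity) h9 hpos h10
      _ = _ := by
          rw [hq]
          have : (j : ℝ) ≠ 0 := by linarith
          have : 1 - e ≠ 0 := by linarith
          have : Real.log α ≠ 0 := by linarith
          field_simp
  have h12 : (1 + 10 * e) * ((1 + e) / (1 - e)) ≤ 1 + 20 * e := by
    rw [mul_div_assoc', div_le_iff₀ (by linarith)]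
    nlinarith
  calc e + (1 + 10 * e) * ((w b j : ℝ) / Real.log (N α j)) ≤
        e + (1 + 10 * e) * ((1 + e) / (1 - e) * (q * Real.log j)) := by
        have := mul_le_mul_of_nonneg_left h11 (show 0 ≤ 1 + 10 * e by linarith)
        linarith
    _ = e + (1 + 10 * e) * ((1 + e) / (1 - e)) * (q * Real.log j) := by ring
    _ ≤ e + (1 + 20 * e) * (q * Real.log j) := by
        have := mul_le_mul_of_nonneg_right h12 (show 0 ≤ q * Real.log j by positivity)
        linarith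
    _ ≤ Real.log j := by
        have h13 : (1 + 20 * e) * q ≤ (1 + q) / 2 := by nlinarith
        have h14 : (1 + 20 * e) * q * Real.log j ≤ (1 + q) / 2 * Real.log j :=
          mul_le_mul_of_nonneg_right h13 (by linarith)
        nlinarith

theorem W_pos (A : ℕ) (W : ℕ → ℕ) (hW : Tendsto (fun p : ℕ => (W p : ℝ) / Dl A p) atTop (𝓝 1)) :
    ∃ p₁ : ℕ, ∀ p, p₁ ≤ p → 1 ≤ W p := by
  have hW1 : ∀ᶠ p : ℕ in atTop, 1 ≤ W p := by
    filter_upwards [hW.eventually_const_lt (show (1 / 2 : ℝ) < 1 by norm_num), basic A 2 1 one_pos] with p h1 h2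
    obtain ⟨h3, h4, -, -⟩ := h2
    have h5 : (1 : ℝ) ≤ (Real.log p) ^ 2 := one_le_pow₀ (by linarith)
    have h6 : 2 ≤ Dl A p := by linarith
    rw [lt_div_iff₀ (by linarith)] at h1
    have h7 : (0 : ℝ) < W p := by linarith
    exact_mod_cast h7
  exact eventually_atTop.1 hW1

theorem lowerR (hξ : ∀ p, Measurable (ξ p)) (hind : iIndepFun ξ μ) (A : ℕ) (hA : 1 ≤ A)
    (W : ℕ → ℕ) (hW : Tendsto (fun p : ℕ => (W p : ℝ) / Dl A p) atTop (𝓝 1))
    (p₀ : ℕ) (hlaw : ∀ p, p.Prime → p₀ ≤ p → Law μ (ξ p) p (W p) 1)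
    (α : ℝ) (hα : 1 < α) (b : ℝ) (hb : b < Real.log α) :
    ∀ᵐ ω ∂μ, ∃ᶠ j : ℕ in atTop, ∀ p : ℕ, p.Prime → ¬ (α ^ j ≤ ξ p ω ∧
      (ξ p ω : ℝ) ≤ α ^ j + b * (j * Real.log j)) := by
  have hlg : 0 < Real.log α := Real.log_pos hα
  obtain ⟨p₁, hp₁⟩ := W_pos A W hW
  have h1 := lowerR_pos μ hξ hind A hA W hW (max p₀ p₁) (fun p _ hp0 => hp₁ p ((le_max_right _ _).trans hp0))
    (fun p hp hp0 => hlaw p hp ((le_max_left _ _).trans hp0)) α hα (max b (Real.log α / 2))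
    (lt_max_of_lt_right (by linarith)) (max_lt hb (by linarith))
  filter_upwards [h1] with ω hω
  refine (hω.and_eventually (eventually_ge_atTop 3)).mono ?_
  rintro j ⟨h2, h3⟩ p hp ⟨hp1, hp2⟩
  apply h2 p hp
  refine ⟨hp1, hp2.trans ?_⟩
  have hj' : (3 : ℝ) ≤ j := by exact_mod_cast h3
  have hl : 0 ≤ Real.log j := Real.log_nonneg (by linarith)
  have := mul_le_mul_of_nonneg_right (le_max_left b (Real.log α / 2)) (show 0 ≤ (j : ℝ) * Real.log j by positivity)
  linarith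

end Pool.Agent.R526.PW
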