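import Pool.Agent.R526.PW.Low

set_option autoImplicit false

/-! # Moved primes around squares -/

namespace Pool.Agent.R526.PW

open MeasureTheory ProbabilityTheory Filter Finset Topology
open Pool.Agent.R526.RS

open scoped Classical

variable {Ω : Type} [MeasurableSpace Ω] (μ : Measure Ω) [IsProbabilityMeasure μ] {ξ : ℕ → Ω → ℕ}

theorem m_top (m : ℕ → ℕ) (hm : ∀ᶠ n : ℕ in atTop, (n : ℝ) ^ 2 ≤ 2 * m n) : Tendsto m atTop atTop := by
  rw [← tendsto_natCast_atTop_iff (R := ℝ)]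
  refine tendsto_atTop_mono' atTop (f₁ := fun n : ℕ => (n : ℝ) / 2) ?_
    (tendsto_natCast_atTop_atTop.atTop_div_const (by norm_num))
  filter_upwards [hm, eventually_ge_atTop 1] with n h1 h2
  have h3 : (1 : ℝ) ≤ n := by exact_mod_cast h2
  nlinarith

theorem m_log (m : ℕ → ℕ) (hm : ∀ᶠ n : ℕ in atTop, (n : ℝ) ^ 2 ≤ 2 * m n) : ∀ᶠ n : ℕ in atTop,
    2 * Real.log n - 1 ≤ Real.log (m n) := by
  filter_upwards [hm, eventually_ge_atTop 1] with n h1 h2
  have h3 : (1 : ℝ) ≤ n := by exact_mod_cast h2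
  have h4 : Real.log ((n : ℝ) ^ 2 / 2) ≤ Real.log (m n) := Real.log_le_log (by positivity) (by linarith)
  rw [Real.log_div (by positivity) (by norm_num), Real.log_pow] at h4
  have := Real.log_two_lt_d9
  push_cast at h4
  linarith

theorem cover_seq (hξ : ∀ p, Measurable (ξ p)) (hind : iIndepFun ξ μ) (A : ℕ) (hA : 1 ≤ A)
    (W : ℕ → ℕ) (hW : Tendsto (fun p : ℕ => (W p : ℝ) / Dl A p) atTop (𝓝 1)) (δ : ℝ) (hδ0 : 0 < δ)
    (p₀ : ℕ) (hlaw : ∀ p, p.Prime → p₀ ≤ p → Law μ (ξ p) p (W p) δ)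
    (m : ℕ → ℕ) (hm : ∀ᶠ n : ℕ in atTop, (n : ℝ) ^ 2 ≤ 2 * m n)
    (h₀ : ℝ) (hh₀ : 1 < 2 * (δ * h₀)) :
    ∀ᵐ ω ∂μ, ∀ᶠ n : ℕ in atTop, ∃ p : ℕ, p.Prime ∧ m n < ξ p ω ∧
      ξ p ω ≤ m n + ⌈h₀ * (Real.log (m n)) ^ 2⌉₊ := by
  have hh0 : 0 < h₀ := by
    by_contra hcon
    have : δ * h₀ ≤ 0 := mul_nonpos_of_nonneg_of_nonpos hδ0.le (not_lt.1 hcon)
    linarith
  set s : ℝ := 2 * (δ * h₀) with hs
  set e : ℝ := min (1 / 10) ((s - 1) / (2 * (4 * s + 1))) with he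
  have he0 : 0 < e := lt_min (by norm_num) (div_pos (by linarith) (by positivity))
  have he1 : e ≤ 1 / 10 := min_le_left _ _
  have he2 : e * (2 * (4 * s + 1)) ≤ s - 1 := by
    have h1 : e ≤ (s - 1) / (2 * (4 * s + 1)) := min_le_right _ _
    rwa [le_div_iff₀ (by positivity)] at h1
  set E : ℝ := (1 - 4 * e) / (1 + e) * s with hE
  have hE1 : 1 < E := by
    rw [hE, div_mul_eq_mul_div, lt_div_iff₀ (by positivity)]
    have : 0 < e * (4 * s + 1) := by positivity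
    nlinarith
  have hup := (m_top m hm).eventually (one_up μ hξ hind A hA W hW δ hδ0 p₀ hlaw h₀ e hh0 he0 he1)
  have hbc := bc_sum μ (fun n : ℕ => Av ξ ((Icc 1 (m n)).filter
    (fun p : ℕ => p.Prime ∧ (m n : ℝ) - (1 - 3 * e) * Dl A (m n) < p))
        (Ioc (m n) (m n + ⌈h₀ * (Real.log (m n)) ^ 2⌉₊))) (fun n : ℕ => Real.exp (E / 2) * (n : ℝ) ^ (-E))
    (fun n => by positivity) ((Real.summable_nat_rpow.2 (by linarith)).mul_left _) (by
      filter_upwards [hup, eventually_ge_atTop 1, m_log m hm] with n hn hn1 hn2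
      have hn0 : (0 : ℝ) < n := by exact_mod_cast hn1
      rw [Real.rpow_def_of_pos hn0, ← Real.exp_add]
      refine hn.trans (Real.exp_le_exp.2 ?_)
      have h3 : (1 - 4 * e) / (1 + e) * (δ * h₀) * Real.log (m n) = E / 2 * Real.log (m n) := by
        rw [hE, hs]; ring
      rw [h3]
      have h4 : E / 2 * (2 * Real.log n - 1) ≤ E / 2 * Real.log (m n) := mul_le_mul_of_nonneg_left hn2 (by linarith)
      linarith)
  filter_upwards [hbc] with ω hω
  filter_upwards [hω] with n hn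
  rw [mem_Av] at hn
  push Not at hn
  obtain ⟨p, hp, hp2⟩ := hn
  rw [mem_filter] at hp
  rw [mem_Ioc] at hp2
  exact ⟨p, hp.2.1, hp2.1, hp2.2⟩

/-- windows without moved primes -/
theorem free_seq (hξ : ∀ p, Measurable (ξ p)) (hind : iIndepFun ξ μ) (A : ℕ) (hA : 1 ≤ A)
    (W : ℕ → ℕ) (hW : Tendsto (fun p : ℕ => (W p : ℝ) / Dl A p) atTop (𝓝 1))
    (p₀ : ℕ) (hp₀ : ∀ p, p.Prime → p₀ ≤ p → 1 ≤ W p) (hlaw : ∀ p, p.Prime → p₀ ≤ p → Law μ (ξ p) p (W p) 1)
    (m w : ℕ → ℕ) (hm : ∀ᶠ n : ℕ in atTop, (n : ℝ) ^ 2 ≤ 2 * m n) (hm2 : ∀ n : ℕ, m n ≤ n ^ 2)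
    (c : ℝ) (hc0 : 0 < c) (hc : c < 2) (hw : ∀ n : ℕ, (w n : ℝ) ≤ c * (Real.log n) ^ 2)
    (hdis : ∀ᶠ n : ℕ in atTop, ∀ n' : ℕ, n < n' → m n + w n ≤ m n') :
    ∀ᵐ ω ∂μ, ∀ᶠ k : ℕ in atTop, ∃ n : ℕ, 2 ^ k < n ∧ n ≤ 2 ^ (k + 1) ∧ ∀ p : ℕ, p.Prime →
      ¬ (m n < ξ p ω ∧ ξ p ω ≤ m n + w n) := by
  set q := c / 2 with hq
  have hq0 : 0 < q := by rw [hq]; linarith
  have hq1 : q < 1 := by rw [hq]; linarith
  set e := min (1 / 10) ((1 - q) / 40) with he
  have he0 : 0 < e := lt_min (by norm_num) (by linarith)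
  have he1 : e ≤ 1 / 10 := min_le_left _ _
  have he2 : e ≤ (1 - q) / 40 := min_le_right _ _
  set η := (1 - q) / 4 with hη
  have hη0 : 0 < η := by rw [hη]; linarith
  have hη1 : η < 1 := by rw [hη]; linarith
  set FK : ℕ → Finset ℕ := fun k => (range (2 * (2 ^ (k + 1)) ^ 2 + 1)).filter (fun p => p.Prime ∧ p₀ ≤ p) with hFK
  have hlogt : Tendsto (fun j : ℕ => Real.log (j : ℝ)) atTop atTop :=
    Real.tendsto_log_atTop.comp tendsto_natCast_atTop_atTop
  -- the probability of one window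
  have hone : ∀ᶠ n : ℕ in atTop, ∀ F : Finset ℕ, (∀ p ∈ F, p.Prime ∧ p₀ ≤ p) →
      (n : ℝ) ^ (-(1 - η)) ≤ μ.real (Av ξ F (Ioc (m n) (m n + w n))) := by
    filter_upwards [(m_top m hm).eventually (low μ hξ hind A hA W hW 1 one_pos le_rfl p₀ hp₀ hlaw e he0 he1),
      m_log m hm, hlogt.eventually_ge_atTop (max 10 (1 / η)), hlogt.eventually_ge_atTop (1 / (2 * e)),
      eventually_ge_atTop 1] with n h1 h2 h3 h3' h4 F hF
    have hL : 10 ≤ Real.log n := (le_max_left _ _).trans h3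
    have hL2 : 1 / η ≤ Real.log n := (le_max_right _ _).trans h3
    rw [div_le_iff₀ hη0] at hL2
    rw [div_le_iff₀ (by positivity)] at h3'
    have hn0 : (0 : ℝ) < n := by exact_mod_cast h4
    have hwl : (w n : ℝ) ≤ (Real.log (m n)) ^ 2 := by
      refine (hw n).trans ?_
      have h5 : (2 * Real.log n - 1) ^ 2 ≤ (Real.log (m n)) ^ 2 := pow_le_pow_left₀ (by linarith) h2 2
      nlinarith
    refine le_trans ?_ (h1 (w n) hwl F hF)
    rw [Real.log_one, neg_zero, mul_zero, zero_add, one_mul, Real.rpow_def_of_pos hn0]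
    apply Real.exp_le_exp.2
    rw [mul_neg]
    apply neg_le_neg
    have h10 : (1 - e) * (2 * Real.log n) ≤ Real.log (m n) := by linarith
    have h11 : (w n : ℝ) / Real.log (m n) ≤ q / (1 - e) * Real.log n := by
      calc (w n : ℝ) / Real.log (m n) ≤ c * (Real.log n) ^ 2 / ((1 - e) * (2 * Real.log n)) :=
            div_le_div₀ (by positivity) (hw n) (mul_pos (by linarith) (by linarith)) h10
        _ = _ := by
            rw [hq]
            have : 1 - e ≠ 0 := by linarith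
            have : Real.log n ≠ 0 := by linarith
            field_simp
    have h12 : (1 + 10 * e) * (q / (1 - e)) ≤ (1 + 20 * e) * q := by
      rw [mul_div_assoc', div_le_iff₀ (by linarith)]
      have : 0 ≤ q * (e * (9 - 20 * e)) := by
        apply mul_nonneg hq0.le
        apply mul_nonneg he0.le
        linarith
      nlinarith
    have h13 : (1 + 20 * e) * q ≤ 1 - 2 * η := by
      rw [hη]
      nlinarith
    calc e + (1 + 10 * e) * ((w n : ℝ) / Real.log (m n)) ≤ e + (1 + 10 * e) * (q / (1 - e) * Real.log n) := by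
          have := mul_le_mul_of_nonneg_left h11 (show 0 ≤ 1 + 10 * e by linarith)
          linarith
      _ = e + (1 + 10 * e) * (q / (1 - e)) * Real.log n := by ring
      _ ≤ e + (1 - 2 * η) * Real.log n := by
          have := mul_le_mul_of_nonneg_right (h12.trans h13) (show 0 ≤ Real.log n by linarith)
          linarith
      _ ≤ Real.log n * (1 - η) := by nlinarith
  -- the second moment
  have hbad : ∀ᶠ k : ℕ in atTop, μ.real (⋂ n ∈ Ioc (2 ^ k) (2 ^ (k + 1)), (Av ξ (FK k) (Ioc (m n) (m n + w n)))ᶜ) ≤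
      2 * ((2 : ℝ) ^ (-η)) ^ k := by
    obtain ⟨n₀, hn₀⟩ := eventually_atTop.1 (hone.and hdis)
    filter_upwards [(tendsto_pow_atTop_atTop_of_one_lt (by norm_num : 1 < 2)).eventually_ge_atTop (n₀ + 1)] with k hk
    set Sk := Ioc (2 ^ k) (2 ^ (k + 1)) with hSk
    set B : ℕ → Set Ω := fun n => Av ξ (FK k) (Ioc (m n) (m n + w n)) with hB
    have hsm := second_le μ B (fun n => Av_meas hξ _ _) Sk 0 (by
      intro n hn n' hn' hlt
      rw [hSk, mem_Ioc] at hn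
      apply Av_neg μ hξ hind
      rw [Finset.disjoint_left]
      intro a ha hb
      rw [mem_Ioc] at ha hb
      have := (hn₀ n (by omega)).2 n' (by omega)
      omega) _ rfl
    set E := ∑ n ∈ Sk, μ.real (B n) with hE
    have h2 : (2 : ℝ) ^ k * ((2 : ℝ) ^ (k + 1)) ^ (-(1 - η)) ≤ E := by
      have h3 : (Sk.card : ℝ) = (2 : ℝ) ^ k := by
        rw [hSk, Nat.card_Ioc]
        have : 2 ^ (k + 1) - 2 ^ k = 2 ^ k := by rw [pow_succ]; omega
        rw [this]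
        push_cast
        ring
      rw [← h3, ← nsmul_eq_mul, ← sum_const, hE]
      apply sum_le_sum
      intro n hn
      rw [hSk, mem_Ioc] at hn
      refine le_trans ?_ ((hn₀ n (by omega)).1 (FK k) (fun p hp => by
        simp only [hFK, mem_filter] at hp
        exact hp.2))
      have hn0 : (0 : ℝ) < n := by exact_mod_cast (by omega : 0 < n)
      apply Real.rpow_le_rpow_of_nonpos hn0 (by exact_mod_cast hn.2) (by linarith)
    have h3 : (2 : ℝ) ^ k * ((2 : ℝ) ^ (k + 1)) ^ (-(1 - η)) = (2 : ℝ) ^ (-(1 - η)) * ((2 : ℝ) ^ η) ^ k := by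
      rw [← Real.rpow_natCast, ← Real.rpow_natCast, ← Real.rpow_natCast, ← Real.rpow_mul (by norm_num),
        ← Real.rpow_mul (by norm_num), ← Real.rpow_add (by norm_num), ← Real.rpow_add (by norm_num)]
      congr 1
      push_cast
      ring
    rw [h3] at h2
    have h4 : (1 : ℝ) / 2 ≤ (2 : ℝ) ^ (-(1 - η)) := by
      have h5 : (1 : ℝ) / 2 = (2 : ℝ) ^ (-(1 : ℝ)) := by rw [Real.rpow_neg_one]; norm_num
      rw [h5]
      exact Real.rpow_le_rpow_of_exponent_le (by norm_num) (by linarith)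
    have h5 : 0 < ((2 : ℝ) ^ η) ^ k := by positivity
    have h6 : 1 / 2 * ((2 : ℝ) ^ η) ^ k ≤ E := (mul_le_mul_of_nonneg_right h4 h5.le).trans h2
    have hE0 : 0 < E := lt_of_lt_of_le (by positivity) h6
    have h7 : μ.real (⋂ n ∈ Sk, (B n)ᶜ) * E ≤ 1 := by
      have h8 : (μ.real (⋂ n ∈ Sk, (B n)ᶜ) * E) * E ≤ 1 * E := by
        push_cast at hsm
        calc _ = μ.real (⋂ n ∈ Sk, (B n)ᶜ) * E ^ 2 := by ring
          _ ≤ _ := hsm
          _ = _ := by ring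
      exact le_of_mul_le_mul_right h8 hE0
    have h8 : μ.real (⋂ n ∈ Sk, (B n)ᶜ) * (1 / 2 * ((2 : ℝ) ^ η) ^ k) ≤ 1 :=
      (mul_le_mul_of_nonneg_left h6 measureReal_nonneg).trans h7
    have h9 : ((2 : ℝ) ^ (-η)) ^ k = (((2 : ℝ) ^ η) ^ k)⁻¹ := by
      rw [Real.rpow_neg (by norm_num), inv_pow]
    rw [h9, ← div_eq_mul_inv, le_div_iff₀ h5]
    linarith
  have hr1 : (2 : ℝ) ^ (-η) < 1 := Real.rpow_lt_one_of_one_lt_of_neg (by norm_num) (by linarith)
  have hbc := bc_sum μ _ (fun k => 2 * ((2 : ℝ) ^ (-η)) ^ k) (fun k => by positivity)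
    ((summable_geometric_of_lt_one (by positivity) hr1).mul_left 2) hbad
  have hae : ∀ᵐ ω ∂μ, ∀ p : ℕ, p.Prime → p₀ ≤ p → p ≤ ξ p ω ∧ ξ p ω ≤ p + W p := by
    rw [ae_all_iff]
    intro p
    by_cases hp : p.Prime ∧ p₀ ≤ p
    · filter_upwards [ae_mem μ (hξ p) (hlaw p hp.1 hp.2) (hp₀ p hp.1 hp.2)] with ω hω _ _
      exact hω
    · filter_upwards with ω h1 h2
      exact absurd ⟨h1, h2⟩ hp
  filter_upwards [hbc, hae] with ω hω hω2
  set M := ∑ p ∈ range p₀, ξ p ω with hM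
  have hsmall : ∀ᶠ n : ℕ in atTop, 2 * (Real.log (n : ℝ)) ^ 2 ≤ n := by
    have h1 := (Real.isLittleO_pow_log_id_atTop (n := 2)).def (show (0 : ℝ) < 1 / 2 by norm_num)
    filter_upwards [tendsto_natCast_atTop_atTop.eventually h1] with m h2
    rw [Real.norm_of_nonneg (by positivity), id, Real.norm_of_nonneg (Nat.cast_nonneg m)] at h2
    linarith
  obtain ⟨n₁, hn₁⟩ := eventually_atTop.1 (((m_top m hm).eventually_ge_atTop M).and (hsmall.and (eventually_ge_atTop 1)))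
  filter_upwards [hω, (tendsto_pow_atTop_atTop_of_one_lt (by norm_num : 1 < 2)).eventually_ge_atTop (n₁ + 1)] with k hk hk2
  simp only [Set.mem_iInter, not_forall] at hk
  obtain ⟨n, hn, hn2⟩ := hk
  rw [Set.mem_compl_iff, not_not] at hn2
  rw [mem_Ioc] at hn
  refine ⟨n, hn.1, hn.2, ?_⟩
  rintro p hp ⟨hp1, hp2⟩
  obtain ⟨g1, g2, g3⟩ := hn₁ n (by omega)
  rw [mem_Av] at hn2
  have hpp : p₀ ≤ p := by
    by_contra hc
    have h6 : ξ p ω ≤ M := by
      rw [hM]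
      exact single_le_sum (f := fun p => ξ p ω) (fun _ _ => Nat.zero_le _) (mem_range.2 (by omega))
    omega
  refine hn2 p ?_ (mem_Ioc.2 ⟨hp1, hp2⟩)
  simp only [hFK, mem_filter, mem_range]
  refine ⟨?_, hp, hpp⟩
  have h1 := (hω2 p hp hpp).1
  have h2 : (w n : ℝ) ≤ n := by
    refine (hw n).trans (le_trans ?_ g2)
    exact mul_le_mul_of_nonneg_right hc.le (sq_nonneg _)
  have h3 : w n ≤ n := by exact_mod_cast h2
  have h4 := hm2 n
  have h5 : n ≤ n ^ 2 := Nat.le_self_pow (by norm_num) n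
  have h6 : n ^ 2 ≤ (2 ^ (k + 1)) ^ 2 := Nat.pow_le_pow_left hn.2 2
  omega

end Pool.Agent.R526.PW
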