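import Pool.Agent.R526.PW.Sq

set_option autoImplicit false

/-! # Distances from the squares to moved primes -/

namespace Pool.Agent.R526.PW

open MeasureTheory ProbabilityTheory Filter Finset Topology
open Pool.Agent.R526.RS

open scoped Classical

variable {Ω : Type} [MeasurableSpace Ω] (μ : Measure Ω) [IsProbabilityMeasure μ] {ξ : ℕ → Ω → ℕ}

theorem logsq_top : Tendsto (fun n : ℕ => (Real.log (n : ℝ)) ^ 2) atTop atTop :=
  (tendsto_pow_atTop (by norm_num)).comp (Real.tendsto_log_atTop.comp tendsto_natCast_atTop_atTop)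

theorem logsq_small (c : ℝ) (hc : 0 < c) : ∀ᶠ n : ℕ in atTop, c * (Real.log (n : ℝ)) ^ 2 + 1 ≤ n := by
  have h1 := (Real.isLittleO_pow_log_id_atTop (n := 2)).def (show (0 : ℝ) < 1 / (2 * c) by positivity)
  filter_upwards [tendsto_natCast_atTop_atTop.eventually h1, eventually_ge_atTop 2] with m h2 h3
  have h4 : (2 : ℝ) ≤ m := by exact_mod_cast h3
  rw [Real.norm_of_nonneg (by positivity), id, Real.norm_of_nonneg (Nat.cast_nonneg m)] at h2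
  have h5 := mul_le_mul_of_nonneg_left h2 hc.le
  have h6 : c * (1 / (2 * c) * (m : ℝ)) = m / 2 := by field_simp
  linarith

theorem near (hξ : ∀ p, Measurable (ξ p)) (hind : iIndepFun ξ μ) (A : ℕ) (hA : 1 ≤ A)
    (W : ℕ → ℕ) (hW : Tendsto (fun p : ℕ => (W p : ℝ) / Dl A p) atTop (𝓝 1)) (δ : ℝ) (hδ0 : 0 < δ)
    (p₀ : ℕ) (hlaw : ∀ p, p.Prime → p₀ ≤ p → Law μ (ξ p) p (W p) δ) (ε : ℝ) (hε : 0 < ε) :
    ∀ᵐ ω ∂μ, ∀ᶠ n : ℕ in atTop,
      (∃ p : ℕ, p.Prime ∧ n ^ 2 < ξ p ω ∧ (ξ p ω : ℝ) ≤ (n : ℝ) ^ 2 + (2 / δ + ε) * (Real.log n) ^ 2) ∧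
      (∃ p : ℕ, p.Prime ∧ (n : ℝ) ^ 2 - (2 / δ + ε) * (Real.log n) ^ 2 ≤ ξ p ω ∧ ξ p ω < n ^ 2) := by
  set h₀ := (2 / δ + ε / 2) / 4 with hh
  set c := 2 / δ + ε with hc
  have hc0 : 0 < c := by positivity
  have hh0 : 0 < h₀ := by positivity
  have h1 : 1 < 2 * (δ * h₀) := by
    have h2 : 2 * (δ * h₀) = 1 + δ * ε / 4 := by
      rw [hh]
      field_simp
      ring
    rw [h2]
    have : 0 < δ * ε / 4 := by positivity
    linarith
  set m : ℕ → ℕ := fun n => n ^ 2 - ⌊c * (Real.log n) ^ 2⌋₊ - 1 with hm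
  have hfl : ∀ n : ℕ, (⌊c * (Real.log n) ^ 2⌋₊ : ℝ) ≤ c * (Real.log n) ^ 2 := fun n => Nat.floor_le (by positivity)
  have hsub : ∀ᶠ n : ℕ in atTop, m n + ⌊c * (Real.log n) ^ 2⌋₊ + 1 = n ^ 2 ∧ (⌊c * (Real.log n) ^ 2⌋₊ : ℝ) + 1 ≤ n := by
    filter_upwards [logsq_small c hc0] with n h2
    have h3 : (⌊c * (Real.log n) ^ 2⌋₊ : ℝ) + 1 ≤ n := by linarith [hfl n]
    have h4 : ⌊c * (Real.log n) ^ 2⌋₊ + 1 ≤ n := by exact_mod_cast h3
    have h5 : n ≤ n ^ 2 := Nat.le_self_pow (by norm_num) n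
    simp only [hm]
    exact ⟨by omega, h3⟩
  have hm1 : ∀ᶠ n : ℕ in atTop, (n : ℝ) ^ 2 ≤ 2 * m n := by
    filter_upwards [hsub, eventually_ge_atTop 2] with n h2 h3
    have h4 : (2 : ℝ) ≤ n := by exact_mod_cast h3
    have h5 : (m n : ℝ) + ⌊c * (Real.log n) ^ 2⌋₊ + 1 = (n : ℝ) ^ 2 := by exact_mod_cast h2.1
    nlinarith [h2.2]
  have hup1 := cover_seq μ hξ hind A hA W hW δ hδ0 p₀ hlaw (fun n => n ^ 2) (by
    filter_upwards with n
    push_cast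
    nlinarith [sq_nonneg (n : ℝ)]) h₀ h1
  have hup2 := cover_seq μ hξ hind A hA W hW δ hδ0 p₀ hlaw m hm1 h₀ h1
  filter_upwards [hup1, hup2] with ω g1 g2
  filter_upwards [g1, g2, hsub, logsq_top.eventually_ge_atTop (6 / ε), eventually_ge_atTop 2, hm1] with n k1 k2 k3 k4 k5 k6
  have hn2 : (2 : ℝ) ≤ n := by exact_mod_cast k5
  rw [div_le_iff₀ hε] at k4
  have hlog : 0 ≤ Real.log n := Real.log_nonneg (by linarith)
  have hkey : 4 * h₀ * (Real.log n) ^ 2 + 2 < c * (Real.log n) ^ 2 := by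
    have : c * (Real.log n) ^ 2 - 4 * h₀ * (Real.log n) ^ 2 = (Real.log n) ^ 2 * ε / 2 := by rw [hc, hh]; ring
    linarith
  constructor
  · obtain ⟨p, hp, a1, a2⟩ := k1
    refine ⟨p, hp, a1, ?_⟩
    have a3 : (ξ p ω : ℝ) ≤ (n : ℝ) ^ 2 + ⌈h₀ * (Real.log ((n ^ 2 : ℕ) : ℝ)) ^ 2⌉₊ := by exact_mod_cast a2
    have a4 : Real.log ((n ^ 2 : ℕ) : ℝ) = 2 * Real.log n := by
      push_cast
      rw [Real.log_pow]
      norm_num
    rw [a4] at a3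
    have a5 := Nat.ceil_lt_add_one (show 0 ≤ h₀ * (2 * Real.log n) ^ 2 by positivity)
    have a6 : h₀ * (2 * Real.log n) ^ 2 = 4 * h₀ * (Real.log n) ^ 2 := by ring
    rw [a6] at a5 a3
    linarith
  · obtain ⟨p, hp, a1, a2⟩ := k2
    have b1 : 0 ≤ Real.log (m n) := Real.log_natCast_nonneg _
    have b2 : Real.log (m n) ≤ 2 * Real.log n := by
      have b3 : (m n : ℝ) ≤ (n : ℝ) ^ 2 := by
        have : m n ≤ n ^ 2 := by omega
        exact_mod_cast this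
      have b4 : (0 : ℝ) < m n := by nlinarith
      have := Real.log_le_log b4 b3
      rw [Real.log_pow] at this
      exact_mod_cast this
    have b5 : (Real.log (m n)) ^ 2 ≤ (2 * Real.log n) ^ 2 := pow_le_pow_left₀ b1 b2 2
    have b6 := Nat.ceil_lt_add_one (show 0 ≤ h₀ * (Real.log (m n)) ^ 2 by positivity)
    have b7 := Nat.lt_floor_add_one (c * (Real.log n) ^ 2)
    have b8 : (⌈h₀ * (Real.log (m n)) ^ 2⌉₊ : ℝ) < ⌊c * (Real.log n) ^ 2⌋₊ := by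
      have : h₀ * (Real.log (m n)) ^ 2 ≤ 4 * h₀ * (Real.log n) ^ 2 := by
        calc h₀ * (Real.log (m n)) ^ 2 ≤ h₀ * (2 * Real.log n) ^ 2 := mul_le_mul_of_nonneg_left b5 hh0.le
          _ = _ := by ring
      linarith
    have b9 : ⌈h₀ * (Real.log (m n)) ^ 2⌉₊ < ⌊c * (Real.log n) ^ 2⌋₊ := by exact_mod_cast b8
    refine ⟨p, hp, ?_, by omega⟩
    have b10 : n ^ 2 ≤ ξ p ω + ⌊c * (Real.log n) ^ 2⌋₊ := by omega
    have b11 : (n : ℝ) ^ 2 ≤ ξ p ω + ⌊c * (Real.log n) ^ 2⌋₊ := by exact_mod_cast b10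
    linarith [hfl n]

theorem far (hξ : ∀ p, Measurable (ξ p)) (hind : iIndepFun ξ μ) (A : ℕ) (hA : 1 ≤ A)
    (W : ℕ → ℕ) (hW : Tendsto (fun p : ℕ => (W p : ℝ) / Dl A p) atTop (𝓝 1))
    (p₀ : ℕ) (hlaw : ∀ p, p.Prime → p₀ ≤ p → Law μ (ξ p) p (W p) 1) (c : ℝ) (hc0 : 0 < c) (hc2 : c < 2) :
    ∀ᵐ ω ∂μ, ∀ᶠ k : ℕ in atTop,
      (∃ n : ℕ, 2 ^ k < n ∧ n ≤ 2 ^ (k + 1) ∧ ∀ p : ℕ, p.Prime →
        ¬ (n ^ 2 < ξ p ω ∧ (ξ p ω : ℝ) ≤ (n : ℝ) ^ 2 + c * (Real.log n) ^ 2)) ∧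
      (∃ n : ℕ, 2 ^ k < n ∧ n ≤ 2 ^ (k + 1) ∧ ∀ p : ℕ, p.Prime →
        ¬ ((n : ℝ) ^ 2 - c * (Real.log n) ^ 2 ≤ ξ p ω ∧ ξ p ω < n ^ 2)) := by
  have hW1 : ∀ᶠ p : ℕ in atTop, 1 ≤ W p := by
    filter_upwards [hW.eventually_const_lt (show (1 / 2 : ℝ) < 1 by norm_num), basic A 2 1 one_pos] with p h1 h2
    obtain ⟨h3, h4, -, -⟩ := h2
    have h5 : (1 : ℝ) ≤ (Real.log p) ^ 2 := one_le_pow₀ (by linarith)
    have h6 : 2 ≤ Dl A p := by linarith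
    rw [lt_div_iff₀ (by linarith)] at h1
    have h7 : (0 : ℝ) < W p := by linarith
    exact_mod_cast h7
  obtain ⟨p₁, hp₁⟩ := eventually_atTop.1 hW1
  set w : ℕ → ℕ := fun n => ⌊c * (Real.log n) ^ 2⌋₊ with hw
  have hfl : ∀ n : ℕ, (w n : ℝ) ≤ c * (Real.log n) ^ 2 := fun n => Nat.floor_le (by positivity)
  have hwn : ∀ᶠ n : ℕ in atTop, w n + 1 ≤ n := by
    filter_upwards [logsq_small c hc0] with n h2
    have h3 : (w n : ℝ) + 1 ≤ n := by linarith [hfl n]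
    exact_mod_cast h3
  set m : ℕ → ℕ := fun n => n ^ 2 - w n - 1 with hm
  obtain ⟨n₂, hn₂⟩ := eventually_atTop.1 hwn
  have hm1 : ∀ᶠ n : ℕ in atTop, (n : ℝ) ^ 2 ≤ 2 * m n := by
    filter_upwards [hwn, eventually_ge_atTop 2] with n h2 h3
    have h5 : n ≤ n ^ 2 := Nat.le_self_pow (by norm_num) n
    have h6 : m n + w n + 1 = n ^ 2 := by simp only [hm]; omega
    have h7 : 2 * n ≤ n ^ 2 := by nlinarith
    have h8 : n ^ 2 ≤ 2 * m n := by omega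
    exact_mod_cast h8
  have hlo1 := free_seq μ hξ hind A hA W hW (max p₀ p₁) (fun p _ hp0 => hp₁ p ((le_max_right _ _).trans hp0))
    (fun p hp hp0 => hlaw p hp ((le_max_left _ _).trans hp0)) (fun n => n ^ 2) w (by
      filter_upwards with n
      push_cast
      nlinarith [sq_nonneg (n : ℝ)]) (fun n => le_rfl) c hc0 hc2 hfl (by
      filter_upwards [hwn] with n h1 n' h2
      show n ^ 2 + w n ≤ n' ^ 2
      nlinarith)
  have hlo2 := free_seq μ hξ hind A hA W hW (max p₀ p₁) (fun p _ hp0 => hp₁ p ((le_max_right _ _).trans hp0))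
    (fun p hp hp0 => hlaw p hp ((le_max_left _ _).trans hp0)) m w hm1 (fun n => by simp only [hm]; omega) c hc0 hc2 hfl (by
      filter_upwards [hwn, eventually_ge_atTop n₂] with n h1 h2 n' h3
      have h4 := hn₂ n' (by omega)
      have h5 : n ≤ n ^ 2 := Nat.le_self_pow (by norm_num) n
      have h6 : m n + w n + 1 = n ^ 2 := by simp only [hm]; omega
      have h7 : n' ≤ n' ^ 2 := Nat.le_self_pow (by norm_num) n'
      have h8 : m n' + w n' + 1 = n' ^ 2 := by simp only [hm]; omega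
      have h9 : n ^ 2 + n' ≤ n' ^ 2 := by nlinarith
      omega)
  filter_upwards [hlo1, hlo2] with ω g1 g2
  filter_upwards [g1, g2, (tendsto_pow_atTop_atTop_of_one_lt (by norm_num : 1 < 2)).eventually_ge_atTop (n₂ + 1)]
    with k k1 k2 k3
  constructor
  · obtain ⟨n, a1, a2, a3⟩ := k1
    refine ⟨n, a1, a2, ?_⟩
    rintro p hp ⟨b1, b2⟩
    refine a3 p hp ⟨b1, ?_⟩
    have b3 : ξ p ω - n ^ 2 ≤ w n := by
      apply Nat.le_floor
      rw [Nat.cast_sub b1.le]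
      push_cast
      linarith
    show ξ p ω ≤ n ^ 2 + w n
    omega
  · obtain ⟨n, a1, a2, a3⟩ := k2
    refine ⟨n, a1, a2, ?_⟩
    rintro p hp ⟨b1, b2⟩
    have b3 : n ^ 2 - ξ p ω ≤ w n := by
      apply Nat.le_floor
      rw [Nat.cast_sub b2.le]
      push_cast
      linarith
    have h1 := hn₂ n (by omega)
    have h5 : n ≤ n ^ 2 := Nat.le_self_pow (by norm_num) n
    have h6 : m n + w n + 1 = n ^ 2 := by simp only [hm]; omega
    exact a3 p hp ⟨by omega, by omega⟩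

end Pool.Agent.R526.PW
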